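import Mathlib

/-!
# Kernel-checked sum-of-squares certificates, part 3: positivity from Gram data
-/

set_option autoImplicit false

namespace Pot4

open Finset Matrix
open scoped ComplexOrder

/-- the sesquilinear form of a matrix -/
noncomputable def SF (K : Matrix (Fin 4) (Fin 4) ℂ) (u v : Fin 4 → ℂ) : ℂ :=
  ∑ i, ∑ j, star (u i) * K i j * v j

theorem SF_nonneg (K : Matrix (Fin 4) (Fin 4) ℂ) (hK : K.PosSemidef) (u : Fin 4 → ℂ) :
    0 ≤ (SF K u u).re := by
  have h := hK.dotProduct_mulVec_nonneg u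
  have h2 : star u ⬝ᵥ (K *ᵥ u) = SF K u u := by
    simp only [dotProduct, mulVec, SF, Pi.star_apply, Finset.mul_sum, mul_assoc]
  rw [h2] at h
  exact (Complex.le_def.1 h).1

theorem SF_star (K : Matrix (Fin 4) (Fin 4) ℂ) (hK : K.IsHermitian) (u v : Fin 4 → ℂ) :
    star (SF K u v) = SF K v u := by
  unfold SF
  rw [star_sum, Finset.sum_comm]
  simp only [star_sum, star_mul', star_star, hK.apply]
  refine Finset.sum_congr rfl fun i _ => Finset.sum_congr rfl fun j _ => ?_
  ring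

theorem SF_re_symm (K : Matrix (Fin 4) (Fin 4) ℂ) (hK : K.IsHermitian) (u v : Fin 4 → ℂ) :
    (SF K u v).re = (SF K v u).re := by
  rw [← SF_star K hK u v]
  exact (Complex.conj_re _).symm

theorem SF_add_left (K : Matrix (Fin 4) (Fin 4) ℂ) (u v w : Fin 4 → ℂ) :
    SF K (u + v) w = SF K u w + SF K v w := by
  unfold SF
  simp only [Pi.add_apply, star_add, add_mul, Finset.sum_add_distrib]

theorem SF_add_right (K : Matrix (Fin 4) (Fin 4) ℂ) (u v w : Fin 4 → ℂ) :
    SF K u (v + w) = SF K u v + SF K u w := by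
  unfold SF
  simp only [Pi.add_apply, mul_add, Finset.sum_add_distrib]

theorem SF_smul_left (K : Matrix (Fin 4) (Fin 4) ℂ) (c : ℝ) (u w : Fin 4 → ℂ) :
    SF K ((c : ℂ) • u) w = c * SF K u w := by
  unfold SF
  simp only [Pi.smul_apply, smul_eq_mul, star_mul', Finset.mul_sum]
  refine Finset.sum_congr rfl fun i _ => Finset.sum_congr rfl fun j _ => ?_
  have : star (c : ℂ) = c := Complex.conj_ofReal c
  rw [this]; ring

theorem SF_smul_right (K : Matrix (Fin 4) (Fin 4) ℂ) (c : ℝ) (u w : Fin 4 → ℂ) :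
    SF K u ((c : ℂ) • w) = c * SF K u w := by
  unfold SF
  simp only [Pi.smul_apply, smul_eq_mul, Finset.mul_sum]
  refine Finset.sum_congr rfl fun i _ => Finset.sum_congr rfl fun j _ => ?_
  ring

theorem SF_sum_left (K : Matrix (Fin 4) (Fin 4) ℂ) (n : ℕ) (z : ℕ → Fin 4 → ℂ) (w : Fin 4 → ℂ) :
    SF K (∑ a ∈ range n, z a) w = ∑ a ∈ range n, SF K (z a) w := by
  induction n with
  | zero => simp [SF]
  | succ n ih => rw [Finset.sum_range_succ, SF_add_left, ih, Finset.sum_range_succ]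

theorem SF_sum_right (K : Matrix (Fin 4) (Fin 4) ℂ) (n : ℕ) (z : ℕ → Fin 4 → ℂ) (w : Fin 4 → ℂ) :
    SF K w (∑ a ∈ range n, z a) = ∑ a ∈ range n, SF K w (z a) := by
  induction n with
  | zero => simp [SF]
  | succ n ih => rw [Finset.sum_range_succ, SF_add_right, ih, Finset.sum_range_succ]

theorem SF_abs_le (K : Matrix (Fin 4) (Fin 4) ℂ) (hK : K.PosSemidef) (u v : Fin 4 → ℂ) :
    |(SF K u v).re| ≤ ((SF K u u).re + (SF K v v).re) / 2 := by
  have hs := SF_re_symm K hK.1 v u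
  have h1 : (SF K (u + v) (u + v)).re
      = (SF K u u).re + (SF K u v).re + ((SF K v u).re + (SF K v v).re) := by
    rw [SF_add_left, SF_add_right, SF_add_right]
    simp only [Complex.add_re]
  have h2 : (SF K (u + ((-1 : ℝ) : ℂ) • v) (u + ((-1 : ℝ) : ℂ) • v)).re
      = (SF K u u).re - (SF K u v).re + (-(SF K v u).re + (SF K v v).re) := by
    rw [SF_add_left, SF_add_right, SF_add_right, SF_smul_left, SF_smul_left, SF_smul_right,
      SF_smul_right]
    simp only [Complex.add_re, Complex.re_ofReal_mul]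
    ring
  have p1 := SF_nonneg K hK (u + v)
  have p2 := SF_nonneg K hK (u + ((-1 : ℝ) : ℂ) • v)
  rw [h1] at p1
  rw [h2] at p2
  rw [abs_le]
  constructor <;> linarith

theorem dd_nonneg (n : ℕ) (E s : ℕ → ℕ → ℝ) (hsym : ∀ a < n, ∀ b < n, E a b = E b a)
    (hdd : ∀ a < n, ∑ b ∈ range n, |E a b| ≤ 2 * E a a)
    (hs : ∀ a < n, ∀ b < n, |s a b| ≤ (s a a + s b b) / 2) :
    0 ≤ ∑ a ∈ range n, ∑ b ∈ range n, E a b * s a b := by
  have hs0 : ∀ a < n, 0 ≤ s a a := fun a ha => by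
    have := hs a ha a ha
    have h2 := abs_nonneg (s a a)
    linarith
  have h1 : ∀ a ∈ range n, ∀ b ∈ range n,
      (if a = b then 2 * E a a * s a a else 0) - (|E a b| * s a a + |E a b| * s b b) / 2
        ≤ E a b * s a b := by
    intro a ha b hb
    rw [mem_range] at ha hb
    have h3 := hs a ha b hb
    by_cases hab : a = b
    · subst hab
      rw [if_pos rfl]
      have h4 : 0 ≤ E a a := by
        have h5 := hdd a ha
        have h6 : 0 ≤ ∑ b ∈ range n, |E a b| := Finset.sum_nonneg fun b _ => abs_nonneg _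
        linarith
      rw [abs_of_nonneg h4]
      linarith
    · rw [if_neg hab]
      have h4 : |E a b * s a b| ≤ |E a b| * ((s a a + s b b) / 2) := by
        rw [abs_mul]
        exact mul_le_mul_of_nonneg_left h3 (abs_nonneg _)
      have h5 := neg_abs_le (E a b * s a b)
      linarith
  have h2 : ∑ a ∈ range n, ∑ b ∈ range n,
      ((if a = b then 2 * E a a * s a a else 0) - (|E a b| * s a a + |E a b| * s b b) / 2)
        ≤ ∑ a ∈ range n, ∑ b ∈ range n, E a b * s a b :=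
    Finset.sum_le_sum fun a ha => Finset.sum_le_sum fun b hb => h1 a ha b hb
  refine le_trans ?_ h2
  have h3 : ∑ a ∈ range n, ∑ b ∈ range n, |E a b| * s b b
      = ∑ a ∈ range n, ∑ b ∈ range n, |E a b| * s a a := by
    rw [Finset.sum_comm]
    refine Finset.sum_congr rfl fun a ha => Finset.sum_congr rfl fun b hb => ?_
    rw [hsym b (mem_range.1 hb) a (mem_range.1 ha)]
  have h4 : ∑ a ∈ range n, ∑ b ∈ range n,
      ((if a = b then 2 * E a a * s a a else 0) - (|E a b| * s a a + |E a b| * s b b) / 2)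
      = ∑ a ∈ range n, (2 * E a a * s a a) -
        (∑ a ∈ range n, ∑ b ∈ range n, |E a b| * s a a +
          ∑ a ∈ range n, ∑ b ∈ range n, |E a b| * s b b) / 2 := by
    simp only [Finset.sum_sub_distrib, ← Finset.sum_div, Finset.sum_add_distrib]
    congr 1
    refine Finset.sum_congr rfl fun a ha => ?_
    rw [Finset.sum_ite_eq, if_pos ha]
  rw [h4, h3]
  have h5 : ∑ a ∈ range n, (2 * E a a * s a a) -
        (∑ a ∈ range n, ∑ b ∈ range n, |E a b| * s a a +
          ∑ a ∈ range n, ∑ b ∈ range n, |E a b| * s a a) / 2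
      = ∑ a ∈ range n, (2 * E a a - ∑ b ∈ range n, |E a b|) * s a a := by
    rw [add_self_div_two, ← Finset.sum_sub_distrib]
    refine Finset.sum_congr rfl fun a _ => ?_
    rw [← Finset.sum_mul]; ring
  rw [h5]
  refine Finset.sum_nonneg fun a ha => ?_
  rw [mem_range] at ha
  exact mul_nonneg (sub_nonneg.2 (hdd a ha)) (hs0 a ha)

/-- positivity of a Gram form, verified by an approximate square root -/
theorem gram_nonneg (n : ℕ) (g m : ℕ → ℕ → ℤ) (c : ℤ) (hc : 0 < c)
    (hsym : ∀ a < n, ∀ b < n, g a b = g b a)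
    (hdd : ∀ a < n, ∑ b ∈ range n, |c * g a b - ∑ t ∈ range n, m t a * m t b|
      ≤ 2 * (c * g a a - ∑ t ∈ range n, m t a * m t a))
    (K : Matrix (Fin 4) (Fin 4) ℂ) (hK : K.PosSemidef) (z : ℕ → Fin 4 → ℂ) :
    0 ≤ (∑ a ∈ range n, ∑ b ∈ range n, (g a b : ℂ) * SF K (z a) (z b)).re := by
  have h1 := dd_nonneg n
    (fun a b => ((c * g a b - ∑ t ∈ range n, m t a * m t b : ℤ) : ℝ))
    (fun a b => (SF K (z a) (z b)).re)
    (fun a ha b hb => by
      have : (c * g a b - ∑ t ∈ range n, m t a * m t b)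
          = (c * g b a - ∑ t ∈ range n, m t b * m t a) := by
        rw [hsym a ha b hb]
        congr 1
        exact Finset.sum_congr rfl fun t _ => mul_comm _ _
      exact congrArg _ this)
    (fun a ha => by
      have := hdd a ha
      have h2 : ((∑ b ∈ range n, |c * g a b - ∑ t ∈ range n, m t a * m t b| : ℤ) : ℝ)
          ≤ ((2 * (c * g a a - ∑ t ∈ range n, m t a * m t a) : ℤ) : ℝ) := Int.cast_le.2 this
      rw [Int.cast_sum] at h2
      simp only [Int.cast_abs] at h2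
      rw [Int.cast_mul] at h2
      exact h2)
    (fun a _ b _ => SF_abs_le K hK _ _)
  have h2 : ∀ t, SF K (∑ a ∈ range n, ((m t a : ℝ) : ℂ) • z a) (∑ a ∈ range n, ((m t a : ℝ) : ℂ) • z a)
      = ∑ a ∈ range n, ∑ b ∈ range n, ((m t a : ℝ) : ℂ) * (((m t b : ℝ) : ℂ) * SF K (z a) (z b)) := by
    intro t
    rw [SF_sum_left]
    refine Finset.sum_congr rfl fun a _ => ?_
    rw [SF_smul_left, SF_sum_right, Finset.mul_sum]
    refine Finset.sum_congr rfl fun b _ => ?_
    rw [SF_smul_right]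
  have h3 : 0 ≤ ∑ t ∈ range n, (SF K (∑ a ∈ range n, ((m t a : ℝ) : ℂ) • z a)
      (∑ a ∈ range n, ((m t a : ℝ) : ℂ) • z a)).re :=
    Finset.sum_nonneg fun t _ => SF_nonneg K hK _
  have h4 : ∀ t, (SF K (∑ a ∈ range n, ((m t a : ℝ) : ℂ) • z a)
      (∑ a ∈ range n, ((m t a : ℝ) : ℂ) • z a)).re
      = ∑ a ∈ range n, ∑ b ∈ range n, ((m t a * m t b : ℤ) : ℝ) * (SF K (z a) (z b)).re := by
    intro t
    rw [h2 t, Complex.re_sum]
    refine Finset.sum_congr rfl fun a _ => ?_
    rw [Complex.re_sum]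
    refine Finset.sum_congr rfl fun b _ => ?_
    rw [Complex.re_ofReal_mul, Complex.re_ofReal_mul]
    push_cast; ring
  have h5 : ∑ t ∈ range n, (SF K (∑ a ∈ range n, ((m t a : ℝ) : ℂ) • z a)
      (∑ a ∈ range n, ((m t a : ℝ) : ℂ) • z a)).re
      = ∑ a ∈ range n, ∑ b ∈ range n,
        ((∑ t ∈ range n, m t a * m t b : ℤ) : ℝ) * (SF K (z a) (z b)).re := by
    rw [Finset.sum_congr rfl fun t _ => h4 t, Finset.sum_comm]
    refine Finset.sum_congr rfl fun a _ => ?_
    rw [Finset.sum_comm]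
    refine Finset.sum_congr rfl fun b _ => ?_
    rw [Int.cast_sum, Finset.sum_mul]
  have h6 : (∑ a ∈ range n, ∑ b ∈ range n, (g a b : ℂ) * SF K (z a) (z b)).re
      = ∑ a ∈ range n, ∑ b ∈ range n, ((g a b : ℤ) : ℝ) * (SF K (z a) (z b)).re := by
    rw [Complex.re_sum]
    refine Finset.sum_congr rfl fun a _ => ?_
    rw [Complex.re_sum]
    refine Finset.sum_congr rfl fun b _ => ?_
    have : ((g a b : ℤ) : ℂ) = (((g a b : ℤ) : ℝ) : ℂ) := by push_cast; rfl
    rw [this, Complex.re_ofReal_mul]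
  have h7 : (c : ℝ) * ∑ a ∈ range n, ∑ b ∈ range n, ((g a b : ℤ) : ℝ) * (SF K (z a) (z b)).re
      = ∑ a ∈ range n, ∑ b ∈ range n,
          ((c * g a b - ∑ t ∈ range n, m t a * m t b : ℤ) : ℝ) * (SF K (z a) (z b)).re
        + ∑ a ∈ range n, ∑ b ∈ range n,
          ((∑ t ∈ range n, m t a * m t b : ℤ) : ℝ) * (SF K (z a) (z b)).re := by
    rw [← Finset.sum_add_distrib, Finset.mul_sum]
    refine Finset.sum_congr rfl fun a _ => ?_
    rw [← Finset.sum_add_distrib, Finset.mul_sum]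
    refine Finset.sum_congr rfl fun b _ => ?_
    push_cast; ring
  rw [h6]
  have hc' : (0 : ℝ) < c := by exact_mod_cast hc
  have h8 : 0 ≤ (c : ℝ) * ∑ a ∈ range n, ∑ b ∈ range n,
      ((g a b : ℤ) : ℝ) * (SF K (z a) (z b)).re := by
    rw [h7, ← h5]
    exact add_nonneg h1 h3
  exact nonneg_of_mul_nonneg_right h8 hc'

end Pot4
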