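import Mathlib

/-!
# MP_502342_al, order 4: common definitions

`GG act A x` is `per A * |x|^2 - sum over sigma of (prod_i A i (sigma i)) * (x, act(sigma) x)`.
For `act = nat4` (natural action on `Fin 4`) it belongs to the blocks (4) and (3,1), for `act = pr`
(action on the three pairings of four points) to the blocks (4) and (2,2).
-/

set_option autoImplicit false

namespace Pot4

open Finset Equiv

/-- the Hermitian form attached to an action of the symmetric group on `Fin m` -/
noncomputable def GG {m : ℕ} (act : Perm (Fin 4) → Fin m → Fin m)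
    (A : Matrix (Fin 4) (Fin 4) ℂ) (x : Fin m → ℂ) : ℂ :=
  ∑ σ : Perm (Fin 4), (∏ i, A i (σ i)) * ∑ k, star (x k) * (x k - x (act σ k))

/-- natural action -/
def nat4 (σ : Perm (Fin 4)) (i : Fin 4) : Fin 4 := σ i

/-- index of the pairing (perfect matching of `Fin 4`) that contains the pair `{a, b}` -/
def pidx : Fin 4 → Fin 4 → Fin 3 :=
  ![![0, 0, 1, 2], ![0, 0, 2, 1], ![1, 2, 0, 0], ![2, 1, 0, 0]]

/-- action on the three pairings `{01|23}, {02|13}, {03|12}` -/
def pr (σ : Perm (Fin 4)) (k : Fin 3) : Fin 3 := pidx (σ 0) (σ k.succ)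

theorem nat4_mul (g h : Perm (Fin 4)) (k : Fin 4) : nat4 (g * h) k = nat4 g (nat4 h k) := rfl

theorem pr_mul (g h : Perm (Fin 4)) (k : Fin 3) : pr (g * h) k = pr g (pr h k) := by
  have key : ∀ a b c d : Fin 4, a ≠ b → c ≠ d →
      ∀ g : Perm (Fin 4), pidx a b = pidx c d → pidx (g a) (g b) = pidx (g c) (g d) := by
    decide +kernel
  have h2 : ∀ (h : Perm (Fin 4)) (k : Fin 3),
      pidx (h 0) (h k.succ) = pidx 0 (pr h k).succ ∧ h 0 ≠ h k.succ := by
    decide +kernel
  unfold pr
  exact key _ _ _ _ (h2 h k).2 (Fin.succ_ne_zero _).symm g (h2 h k).1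

end Pot4
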