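import Mathlib
import Pool.Agent.Lib.Pot4.Defs

/-!
# Kernel-checked sum-of-squares certificates, part 1: packed data, monomials, orbits
-/

set_option autoImplicit false

namespace Pot4

open Finset Equiv

/-! ### packed data -/

/-- digit `i` of width `w` of `x` -/
def dg (w x i : ℕ) : ℕ := Nat.mod (Nat.shiftRight x (Nat.mul w i)) (Nat.pow 2 w)

/-- signed digit `i` of width `w` of `x` -/
def sdg (w x i : ℕ) : ℤ := Int.subNatNat (dg w x i) (Nat.pow 2 (Nat.sub w 1))

theorem dg_lt (w x i : ℕ) : dg w x i < 2 ^ w := Nat.mod_lt _ (Nat.two_pow_pos w)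

theorem abs_sdg_le (w x i : ℕ) (hw : 0 < w) : |sdg w x i| ≤ 2 ^ (w - 1) := by
  have h1 := dg_lt w x i
  have h2 : (2 : ℕ) ^ w = 2 * 2 ^ (w - 1) := by rw [← pow_succ']; congr 1; omega
  have h3 : sdg w x i = ((dg w x i : ℕ) : ℤ) - ((2 ^ (w - 1) : ℕ) : ℤ) := by
    unfold sdg; rw [Int.subNatNat_eq_coe]; rfl
  have h4 : ((2 : ℤ) ^ (w - 1)) = ((2 ^ (w - 1) : ℕ) : ℤ) := by push_cast; rfl
  rw [h3, h4, abs_le]
  constructor <;> omega

/-- `sum_{i<n} f i` for evaluation in the kernel -/
def sumZ (n : ℕ) (f : ℕ → ℤ) : ℤ := Nat.rec 0 (fun k acc => Int.add acc (f k)) n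

theorem sumZ_eq (n : ℕ) (f : ℕ → ℤ) : sumZ n f = ∑ i ∈ range n, f i := by
  induction n with
  | zero => rfl
  | succ n ih => rw [Finset.sum_range_succ, ← ih]; rfl

/-- `for all i < n, f i` for evaluation in the kernel -/
def allN (n : ℕ) (f : ℕ → Bool) : Bool := Nat.rec true (fun k acc => Bool.rec false acc (f k)) n

theorem allN_iff (n : ℕ) (f : ℕ → Bool) : allN n f = true ↔ ∀ i < n, f i = true := by
  induction n with
  | zero => simp [allN]
  | succ n ih =>
    have h : allN (n + 1) f = Bool.rec false (allN n f) (f n) := rfl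
    rw [h]
    cases hf : f n with
    | false =>
      simp only [Bool.false_eq_true, false_iff]
      intro h2
      have := h2 n (Nat.lt_succ_self n)
      rw [hf] at this
      exact Bool.false_ne_true this
    | true =>
      show allN n f = true ↔ _
      rw [ih]
      constructor
      · intro h2 i hi
        rcases Nat.lt_succ_iff_lt_or_eq.1 hi with h3 | h3
        · exact h2 i h3
        · rw [h3]; exact hf
      · intro h2 i hi
        exact h2 i (Nat.lt_succ_of_lt hi)

/-! ### uniqueness of expansions -/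

theorem expansion_unique (t : ℤ) (m : ℕ) : ∀ v : ℕ → ℤ, (∀ c < m, |v c| < t) →
    ∑ c ∈ range m, v c * t ^ c = 0 → ∀ c < m, v c = 0 := by
  induction m with
  | zero => intro v _ _ c hc; exact absurd hc (Nat.not_lt_zero c)
  | succ m ih =>
    intro v hv hs
    rw [Finset.sum_range_succ'] at hs
    have h1 : ∑ k ∈ range m, v (k + 1) * t ^ (k + 1) = t * ∑ k ∈ range m, v (k + 1) * t ^ k := by
      rw [Finset.mul_sum]; refine Finset.sum_congr rfl fun k _ => ?_; ring
    rw [h1, pow_zero, mul_one] at hs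
    have h0 : v 0 = 0 := by
      have hd : t ∣ v 0 := ⟨-∑ k ∈ range m, v (k + 1) * t ^ k, by linarith⟩
      exact Int.eq_zero_of_abs_lt_dvd hd (hv 0 (Nat.succ_pos m))
    have ht : t ≠ 0 := by
      intro h
      have := hv 0 (Nat.succ_pos m)
      rw [h] at this
      exact absurd this (not_lt.2 (abs_nonneg _))
    have h2 : ∑ k ∈ range m, v (k + 1) * t ^ k = 0 := by
      rw [h0, add_zero] at hs
      exact (mul_eq_zero.1 hs).resolve_left ht
    intro c hc
    cases c with
    | zero => exact h0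
    | succ c =>
      exact ih (fun k => v (k + 1)) (fun k hk => hv (k + 1) (Nat.succ_lt_succ hk)) h2 c
        (Nat.lt_of_succ_lt_succ hc)

/-- grouping of a sum by classes, verified by one integer -/
theorem key {ι : Type*} (E : Finset ι) (w : ι → ℤ) (cl : ι → ℕ) (m : ℕ) (hc : ∀ e ∈ E, cl e < m)
    (C : ℕ → ℤ) (t b1 b2 : ℤ) (hw : ∑ e ∈ E, |w e| ≤ b1) (hC : ∀ c < m, |C c| ≤ b2)
    (hb : b1 + b2 < t)
    (hacc : ∑ e ∈ E, w e * t ^ (cl e) = ∑ c ∈ range m, C c * t ^ c) (Ψ : ℕ → ℂ) :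
    ∑ e ∈ E, (w e : ℂ) * Ψ (cl e) = ∑ c ∈ range m, (C c : ℂ) * Ψ c := by
  classical
  have h1 : ∀ {R : Type} [CommRing R] (f : ι → R) (g : ℕ → R),
      ∑ e ∈ E, f e * g (cl e) = ∑ c ∈ range m, (∑ e ∈ E, if cl e = c then f e else 0) * g c := by
    intro R _ f g
    have : ∀ c ∈ range m, (∑ e ∈ E, if cl e = c then f e else 0) * g c
        = ∑ e ∈ E, if cl e = c then f e * g c else 0 := by
      intro c _
      rw [Finset.sum_mul]
      refine Finset.sum_congr rfl fun e _ => ?_
      split_ifs <;> simp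
    rw [Finset.sum_congr rfl this, Finset.sum_comm]
    refine Finset.sum_congr rfl fun e he => ?_
    rw [Finset.sum_ite_eq, if_pos (mem_range.2 (hc e he))]
  have h2 := h1 w (fun c => t ^ c)
  rw [h2] at hacc
  have h3 : ∑ c ∈ range m, ((∑ e ∈ E, if cl e = c then w e else 0) - C c) * t ^ c = 0 := by
    have e1 : ∑ c ∈ range m, ((∑ e ∈ E, if cl e = c then w e else 0) - C c) * t ^ c
        = ∑ c ∈ range m, (∑ e ∈ E, if cl e = c then w e else 0) * t ^ c
          - ∑ c ∈ range m, C c * t ^ c := by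
      rw [← Finset.sum_sub_distrib]
      refine Finset.sum_congr rfl fun c _ => ?_
      exact sub_mul _ _ _
    rw [e1, hacc, sub_self]
  have h4 := expansion_unique t m _ (fun c hcm => by
    have h5 : |∑ e ∈ E, if cl e = c then w e else 0| ≤ b1 := by
      refine le_trans (Finset.abs_sum_le_sum_abs _ _) (le_trans (Finset.sum_le_sum fun e _ => ?_) hw)
      split_ifs
      · exact le_refl _
      · rw [abs_zero]; exact abs_nonneg _
    calc |(∑ e ∈ E, if cl e = c then w e else 0) - C c|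
        ≤ |∑ e ∈ E, if cl e = c then w e else 0| + |C c| := abs_sub _ _
      _ ≤ b1 + b2 := add_le_add h5 (hC c hcm)
      _ < t := hb) h3
  rw [h1 (fun e => (w e : ℂ)) Ψ]
  refine Finset.sum_congr rfl fun c hcm => ?_
  have h6 := h4 c (mem_range.1 hcm)
  have h7 : (∑ e ∈ E, if cl e = c then ((w e : ℤ) : ℂ) else 0) = (C c : ℂ) := by
    have : (∑ e ∈ E, if cl e = c then w e else 0) = C c := by linarith
    rw [← this, Int.cast_sum]
    refine Finset.sum_congr rfl fun e _ => ?_
    split_ifs <;> simp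
  rw [h7]

/-! ### permutations, arcs, monomials -/

/-- the 24 permutations, two bits for each image -/
def HTab : ℕ := 669236436005411928080145373044091295208890640391302853860

/-- their action on the three pairings -/
def KTab3 : ℕ := 885028534872295464462930451057359209031215794648166504484

/-- primes attached to the arcs (1 for the diagonal) -/
def PTab : ℕ := 1521974038984584801816589065089384961

/-- image of `k` under permutation number `h` in the table `T` -/
def kf (T h k : ℕ) : ℕ := Nat.mod (Nat.shiftRight T (Nat.add (Nat.mul 8 h) (Nat.mul 2 k))) 4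

/-- image of the arc `c` under permutation number `h` -/
def hc (h c : ℕ) : ℕ := Nat.add (Nat.mul 4 (kf HTab h (Nat.div c 4))) (kf HTab h (Nat.mod c 4))

/-- the prime of an arc -/
def pc (c : ℕ) : ℕ := dg 8 PTab c

/-- entry of `A` at the arc `c = 4 i + j` -/
noncomputable def ent (A : Matrix (Fin 4) (Fin 4) ℂ) (c : ℕ) : ℂ :=
  A (Fin.ofNat 4 (c / 4)) (Fin.ofNat 4 (c % 4))

/-- the monomial of a list of arcs -/
noncomputable def phi (A : Matrix (Fin 4) (Fin 4) ℂ) (L : List ℕ) : ℂ := (L.map (ent A)).prod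

/-- product of the primes of the arcs of `L` moved by `h` -/
def pcode (h : ℕ) (L : List ℕ) : ℕ := List.rec 1 (fun c _ acc => Nat.mul (pc (hc h c)) acc) L

/-- product of the primes of the arcs -/
def pcode0 (L : List ℕ) : ℕ := List.rec 1 (fun c _ acc => Nat.mul (pc c) acc) L

/-- the arc of a prime -/
def pinv (p : ℕ) : ℕ :=
  if p = 2 then 1 else if p = 3 then 2 else if p = 5 then 3 else if p = 7 then 4 else
  if p = 11 then 6 else if p = 13 then 7 else if p = 17 then 8 else if p = 19 then 9 else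
  if p = 23 then 11 else if p = 29 then 12 else if p = 31 then 13 else if p = 37 then 14 else 0

/-- multiplicative extension -/
noncomputable def FF (A : Matrix (Fin 4) (Fin 4) ℂ) (n : ℕ) : ℂ :=
  n.factorization.prod fun p e => (ent A (pinv p)) ^ e

theorem FF_mul (A : Matrix (Fin 4) (Fin 4) ℂ) {a b : ℕ} (ha : a ≠ 0) (hb : b ≠ 0) :
    FF A (a * b) = FF A a * FF A b := by
  unfold FF
  rw [Nat.factorization_mul ha hb]
  exact Finsupp.prod_add_index' (fun _ => pow_zero _) (fun _ _ _ => pow_add _ _ _)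

theorem pc_cases : ∀ c < 16, (pc c = 1 ∧ c / 4 = c % 4) ∨ (Nat.Prime (pc c) ∧ pinv (pc c) = c) := by
  intro c hc
  have h : pc c = [1,2,3,5,7,1,11,13,17,19,1,23,29,31,37,1].getD c 0 := by
    interval_cases c <;> decide +kernel
  rw [h]
  interval_cases c <;> simp [pinv] <;> norm_num

theorem pc_pos (c : ℕ) (hc : c < 16) : pc c ≠ 0 := by
  rcases pc_cases c hc with h | h
  · rw [h.1]; exact one_ne_zero
  · exact h.1.ne_zero

theorem FF_pc (A : Matrix (Fin 4) (Fin 4) ℂ) (hd : ∀ i, A i i = 1) (c : ℕ) (hc : c < 16) :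
    FF A (pc c) = ent A c := by
  rcases pc_cases c hc with ⟨h1, h2⟩ | ⟨h1, h2⟩
  · rw [h1]
    unfold FF ent
    rw [Nat.factorization_one, h2, hd]
    exact Finsupp.prod_zero_index
  · unfold FF
    have h3 := Finsupp.prod_single_index (a := pc c) (b := 1)
      (h := fun p e => (ent A (pinv p)) ^ e) (pow_zero _)
    rw [h1.factorization, h3, pow_one, h2]

theorem pcode0_ne (L : List ℕ) (hL : ∀ c ∈ L, c < 16) : pcode0 L ≠ 0 := by
  induction L with
  | nil => exact one_ne_zero
  | cons c L ih =>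
    have h : pcode0 (c :: L) = pc c * pcode0 L := rfl
    rw [h]
    exact mul_ne_zero (pc_pos c (hL c List.mem_cons_self))
      (ih fun d hd => hL d (List.mem_cons_of_mem _ hd))

theorem phi_eq (A : Matrix (Fin 4) (Fin 4) ℂ) (hd : ∀ i, A i i = 1) (L : List ℕ)
    (hL : ∀ c ∈ L, c < 16) : phi A L = FF A (pcode0 L) := by
  induction L with
  | nil =>
    show (1 : ℂ) = FF A 1
    unfold FF
    rw [Nat.factorization_one]
    exact Finsupp.prod_zero_index.symm
  | cons c L ih =>
    have h : pcode0 (c :: L) = pc c * pcode0 L := rfl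
    have h2 : phi A (c :: L) = ent A c * phi A L := by simp [phi]
    have h3 : ∀ d ∈ L, d < 16 := fun d hd => hL d (List.mem_cons_of_mem _ hd)
    rw [h, h2, FF_mul A (pc_pos c (hL c List.mem_cons_self)) (pcode0_ne L h3), ih h3,
      FF_pc A hd c (hL c List.mem_cons_self)]

theorem phi_congr (A : Matrix (Fin 4) (Fin 4) ℂ) (hd : ∀ i, A i i = 1) (L L' : List ℕ)
    (hL : ∀ c ∈ L, c < 16) (hL' : ∀ c ∈ L', c < 16) (h : pcode0 L = pcode0 L') :
    phi A L = phi A L' := by
  rw [phi_eq A hd L hL, phi_eq A hd L' hL', h]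

theorem pcode_eq (h : ℕ) (L : List ℕ) : pcode h L = pcode0 (L.map (hc h)) := by
  induction L with
  | nil => rfl
  | cons c L ih =>
    have h1 : pcode h (c :: L) = pc (hc h c) * pcode h L := rfl
    rw [h1, ih]
    rfl

theorem kf_lt (T h k : ℕ) : kf T h k < 4 := Nat.mod_lt _ (by norm_num)

theorem hc_lt (h c : ℕ) : hc h c < 16 := by
  have h1 := kf_lt HTab h (c / 4)
  have h2 := kf_lt HTab h (c % 4)
  have h3 : hc h c = 4 * kf HTab h (c / 4) + kf HTab h (c % 4) := rfl
  omega

/-- the table gives permutations with the right action on pairings -/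
theorem exists_perm : ∀ h < 24, ∃ σ : Perm (Fin 4),
    (∀ i : Fin 4, ((σ i : Fin 4) : ℕ) = kf HTab h i) ∧
      ∀ k : Fin 3, ((pr σ k : Fin 3) : ℕ) = kf KTab3 h k := by
  decide +kernel

/-! ### orbit sums -/

/-- orbit sum of a monomial times `x_k conj x_l` -/
noncomputable def Phi {K : ℕ} (act : Perm (Fin 4) → Fin K → Fin K)
    (A : Matrix (Fin 4) (Fin 4) ℂ) (x : Fin K → ℂ) (L : List ℕ) (k l : Fin K) : ℂ :=
  ∑ g : Perm (Fin 4), phi (A.submatrix g g) L * (x (act g k) * star (x (act g l)))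

theorem phi_perm (A : Matrix (Fin 4) (Fin 4) ℂ) (σ : Perm (Fin 4)) (h : ℕ)
    (hσ : ∀ i : Fin 4, ((σ i : Fin 4) : ℕ) = kf HTab h i) (L : List ℕ) (hL : ∀ c ∈ L, c < 16) :
    phi A (L.map (hc h)) = phi (A.submatrix σ σ) L := by
  unfold phi
  rw [List.map_map]
  congr 1
  refine List.map_congr_left fun c hcL => ?_
  have hc16 := hL c hcL
  have h1 := hσ (Fin.ofNat 4 (c / 4))
  have h2 := hσ (Fin.ofNat 4 (c % 4))
  have e1 : ((Fin.ofNat 4 (c / 4) : Fin 4) : ℕ) = c / 4 := Nat.mod_eq_of_lt (by omega)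
  have e2 : ((Fin.ofNat 4 (c % 4) : Fin 4) : ℕ) = c % 4 := Nat.mod_eq_of_lt (by omega)
  rw [e1] at h1
  rw [e2] at h2
  have h3 : hc h c = 4 * kf HTab h (c / 4) + kf HTab h (c % 4) := rfl
  have k1 := kf_lt HTab h (c / 4)
  have k2 := kf_lt HTab h (c % 4)
  have e3 : hc h c / 4 = kf HTab h (c / 4) := by omega
  have e4 : hc h c % 4 = kf HTab h (c % 4) := by omega
  have g1 : Fin.ofNat 4 (kf HTab h (c / 4)) = σ (Fin.ofNat 4 (c / 4)) := by
    apply Fin.ext
    show kf HTab h (c / 4) % 4 = _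
    rw [h1]; exact Nat.mod_eq_of_lt k1
  have g2 : Fin.ofNat 4 (kf HTab h (c % 4)) = σ (Fin.ofNat 4 (c % 4)) := by
    apply Fin.ext
    show kf HTab h (c % 4) % 4 = _
    rw [h2]; exact Nat.mod_eq_of_lt k2
  show ent A (hc h c) = ent (A.submatrix σ σ) c
  unfold ent
  rw [e3, e4, g1, g2]
  rfl

/-- compatibility of an action with a table -/
def Compat {K : ℕ} (act : Perm (Fin 4) → Fin K → Fin K) (T : ℕ) : Prop :=
  (∀ g h k, act (g * h) k = act g (act h k)) ∧
  ∀ h < 24, ∃ σ : Perm (Fin 4), (∀ i : Fin 4, ((σ i : Fin 4) : ℕ) = kf HTab h i) ∧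
    ∀ k : Fin K, ((act σ k : Fin K) : ℕ) = kf T h k

theorem compat_nat : Compat nat4 HTab := by
  refine ⟨nat4_mul, fun h hh => ?_⟩
  obtain ⟨σ, h1, _⟩ := exists_perm h hh
  exact ⟨σ, h1, h1⟩

theorem compat_pr : Compat pr KTab3 := ⟨pr_mul, exists_perm⟩

/-- a monomial may be replaced by the representative of its orbit -/
theorem Phi_move {K : ℕ} {act : Perm (Fin 4) → Fin K → Fin K} {T : ℕ} (hact : Compat act T)
    (A : Matrix (Fin 4) (Fin 4) ℂ) (hd : ∀ i, A i i = 1) (x : Fin K → ℂ) (L L' : List ℕ)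
    (hL : ∀ c ∈ L, c < 16) (hL' : ∀ c ∈ L', c < 16) (h : ℕ) (hh : h < 24)
    (hcode : pcode h L = pcode0 L') (k l k' l' : Fin K) (hk : (k' : ℕ) = kf T h k)
    (hl : (l' : ℕ) = kf T h l) :
    Phi act A x L k l = Phi act A x L' k' l' := by
  obtain ⟨σ, h1, h2⟩ := hact.2 h hh
  have ek : k' = act σ k := Fin.ext (by rw [hk, h2])
  have el : l' = act σ l := Fin.ext (by rw [hl, h2])
  unfold Phi
  rw [← Equiv.sum_comp (Equiv.mulRight σ)]
  refine Finset.sum_congr rfl fun g _ => ?_
  have e1 : (Equiv.mulRight σ) g = g * σ := rfl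
  rw [e1, hact.1, hact.1, ← ek, ← el]
  congr 1
  have e2 : A.submatrix (g * σ) (g * σ) = (A.submatrix g g).submatrix σ σ := rfl
  rw [e2, ← phi_perm (A.submatrix g g) σ h h1 L hL]
  refine phi_congr (A.submatrix g g) (fun i => hd (g i)) _ _ ?_ hL' ?_
  · intro c hcm
    obtain ⟨d, _, rfl⟩ := List.mem_map.1 hcm
    exact hc_lt h d
  · rw [← pcode_eq, hcode]

end Pot4
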