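import Mathlib
import Pool.Agent.Lib.Pot4.Ver

/-!
# Kernel-checked sum-of-squares certificates, part 2: words and the two kernels
-/

set_option autoImplicit false

namespace Pot4

open Finset Equiv Matrix
open scoped ComplexOrder MatrixOrder

/-! ### words: two bits for the slot, then three arcs -/

/-- slot of a word -/
def wslot (w : ℕ) : ℕ := Nat.mod w 4

/-- arc `j` of a word -/
def warc (w j : ℕ) : ℕ := Nat.mod (Nat.shiftRight w (Nat.add 2 (Nat.mul 4 j))) 16

/-- reversed arc -/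
def rv (c : ℕ) : ℕ := Nat.add (Nat.mul 4 (Nat.mod c 4)) (Nat.div c 4)

/-- element `j` of the complement of `s` -/
def I3 (s j : ℕ) : ℕ := Bool.rec (Nat.succ j) j (Nat.blt j s)

/-- the six permutations of three points -/
def P3Tab : ℕ := 6674532341796

/-- image of `j` under the permutation number `p` of three points -/
def p3 (p j : ℕ) : ℕ := dg 2 (dg 8 P3Tab p) j

/-- arcs of the kernels: `ty = false` is `a_{s s'}`, `ty = true` is the `3 x 3` minor -/
def karc (ty : Bool) (p s s' j : ℕ) : ℕ :=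
  Bool.rec (Bool.rec 0 (Nat.add (Nat.mul 4 s) s') (Nat.beq j 0))
    (Nat.add (Nat.mul 4 (I3 s j)) (I3 s' (p3 p j))) ty

/-- sign of the kernel term `p` -/
def ksgn (ty : Bool) (p : ℕ) : ℤ :=
  Bool.rec (Int.ofNat 1) (Bool.rec (Int.ofNat 1) (Int.negSucc 0) (Nat.testBit 38 p)) ty

/-- number of kernel terms -/
def kP (ty : Bool) : ℕ := Bool.rec 1 6 ty

/-- the arcs of a kernel term -/
def kL (ty : Bool) (p s s' : ℕ) : List ℕ := [karc ty p s s' 0, karc ty p s s' 1, karc ty p s s' 2]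

/-- the monomial `conj(q_w) q_w' (kernel term)` -/
def Mon (ty : Bool) (p w w' : ℕ) : List ℕ :=
  [rv (warc w 0), rv (warc w 1), rv (warc w 2), warc w' 0, warc w' 1, warc w' 2,
    karc ty p (wslot w) (wslot w') 0, karc ty p (wslot w) (wslot w') 1,
    karc ty p (wslot w) (wslot w') 2]

theorem wslot_lt (w : ℕ) : wslot w < 4 := Nat.mod_lt _ (by norm_num)

theorem warc_lt (w j : ℕ) : warc w j < 16 := Nat.mod_lt _ (by norm_num)

theorem rv_eq (c : ℕ) : rv c = 4 * (c % 4) + c / 4 := rfl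

theorem rv_lt (c : ℕ) (hc : c < 16) : rv c < 16 := by rw [rv_eq]; omega

theorem karc_lt : ∀ (ty : Bool) (p : ℕ), p < 6 → ∀ (s : ℕ), s < 4 → ∀ (s' : ℕ), s' < 4 →
    ∀ j < 3, karc ty p s s' j < 16 := by
  decide +kernel

theorem kP_le (ty : Bool) : kP ty ≤ 6 := by cases ty <;> decide

theorem Mon_lt (ty : Bool) (p w w' : ℕ) (hp : p < kP ty) : ∀ c ∈ Mon ty p w w', c < 16 := by
  intro c hc
  have hp6 : p < 6 := lt_of_lt_of_le hp (kP_le ty)
  have hk := karc_lt ty p hp6 (wslot w) (wslot_lt w) (wslot w') (wslot_lt w')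
  simp only [Mon, List.mem_cons, List.not_mem_nil, or_false] at hc
  rcases hc with h | h | h | h | h | h | h | h | h <;> rw [h]
  · exact rv_lt _ (warc_lt _ _)
  · exact rv_lt _ (warc_lt _ _)
  · exact rv_lt _ (warc_lt _ _)
  · exact warc_lt _ _
  · exact warc_lt _ _
  · exact warc_lt _ _
  · exact hk 0 (by norm_num)
  · exact hk 1 (by norm_num)
  · exact hk 2 (by norm_num)

/-- the kernel as a matrix -/
noncomputable def Km (ty : Bool) (A : Matrix (Fin 4) (Fin 4) ℂ) (i j : Fin 4) : ℂ :=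
  ∑ p ∈ range (kP ty), (ksgn ty p : ℂ) * phi A (kL ty p i j)

theorem phi_mon (ty : Bool) (p w w' : ℕ) (A : Matrix (Fin 4) (Fin 4) ℂ) :
    phi A (Mon ty p w w') = phi A [rv (warc w 0), rv (warc w 1), rv (warc w 2)] *
      phi A [warc w' 0, warc w' 1, warc w' 2] * phi A (kL ty p (wslot w) (wslot w')) := by
  simp only [phi, Mon, kL, List.map_cons, List.map_nil, List.prod_cons, List.prod_nil]
  ring

theorem star_ent (A : Matrix (Fin 4) (Fin 4) ℂ) (hA : A.IsHermitian) (c : ℕ) (hc : c < 16) :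
    star (ent A c) = ent A (rv c) := by
  have h1 : rv c / 4 = c % 4 := by rw [rv_eq]; omega
  have h2 : rv c % 4 = c / 4 := by rw [rv_eq]; omega
  unfold ent
  rw [h1, h2]
  exact hA.apply _ _

theorem star_phi3 (A : Matrix (Fin 4) (Fin 4) ℂ) (hA : A.IsHermitian) (w : ℕ) :
    star (phi A [warc w 0, warc w 1, warc w 2])
      = phi A [rv (warc w 0), rv (warc w 1), rv (warc w 2)] := by
  simp only [phi, List.map_cons, List.map_nil, List.prod_cons, List.prod_nil, mul_one,
    star_mul', star_ent A hA _ (warc_lt _ _)]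

theorem compound_psd (A : Matrix (Fin 4) (Fin 4) ℂ) (hA : A.PosSemidef) :
    (Matrix.of fun i j : Fin 4 => (A.submatrix i.succAbove j.succAbove).det).PosSemidef := by
  obtain ⟨B, hB⟩ := CStarAlgebra.nonneg_iff_eq_star_mul_self.mp hA.nonneg
  have h1 : A.adjugate = B.adjugate * (B.adjugate)ᴴ := by
    rw [hB, star_eq_conjTranspose, adjugate_mul_distrib, adjugate_conjTranspose]
  have h2 : (A.adjugate).PosSemidef := by rw [h1]; exact posSemidef_self_mul_conjTranspose _
  have h3 := h2.transpose.conjTranspose_mul_mul_same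
    (Matrix.diagonal fun i : Fin 4 => ((-1 : ℂ)) ^ (i : ℕ))
  have h7 : (Matrix.of fun i j : Fin 4 => (A.submatrix i.succAbove j.succAbove).det)
      = (Matrix.diagonal fun i : Fin 4 => ((-1 : ℂ)) ^ (i : ℕ))ᴴ * A.adjugateᵀ *
        (Matrix.diagonal fun i : Fin 4 => ((-1 : ℂ)) ^ (i : ℕ)) := by
    ext i j
    rw [Matrix.of_apply, Matrix.mul_diagonal, diagonal_conjTranspose, Matrix.diagonal_mul,
      Matrix.transpose_apply, adjugate_fin_succ_eq_det_submatrix]
    have h4 : star (fun i : Fin 4 => ((-1 : ℂ)) ^ (i : ℕ)) i = (-1) ^ (i : ℕ) := by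
      simp
    rw [h4, pow_add]
    have h5 : ((-1 : ℂ) ^ (i : ℕ)) * (-1) ^ (i : ℕ) = 1 := by
      rw [← mul_pow]; norm_num
    have h6 : ((-1 : ℂ) ^ (j : ℕ)) * (-1) ^ (j : ℕ) = 1 := by
      rw [← mul_pow]; norm_num
    linear_combination (-(1 : ℂ) * (-1 : ℂ) ^ (j : ℕ) * (-1) ^ (j : ℕ) *
      (A.submatrix i.succAbove j.succAbove).det) * h5 -
      (A.submatrix i.succAbove j.succAbove).det * h6
  rw [h7]; exact h3

theorem ent_pair (A : Matrix (Fin 4) (Fin 4) ℂ) (i j : Fin 4) : ent A (4 * i + j) = A i j := by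
  unfold ent
  congr 1 <;> apply Fin.ext
  · show (4 * (i : ℕ) + j) / 4 % 4 = i
    omega
  · show (4 * (i : ℕ) + j) % 4 % 4 = j
    omega

/-- permutation number `p` of three points -/
def q3 (p : ℕ) (k : Fin 3) : Fin 3 := Fin.ofNat 3 (p3 p k)

theorem karc_true : ∀ (p : ℕ), p < 6 → ∀ (i j : Fin 4) (k : Fin 3),
    karc true p i j k = 4 * (i.succAbove k : ℕ) + (j.succAbove (q3 p k) : ℕ) := by
  decide +kernel

theorem q3_val : (∀ k, q3 0 k = k) ∧ (q3 1 0 = 0 ∧ q3 1 1 = 2 ∧ q3 1 2 = 1) ∧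
    (q3 2 0 = 1 ∧ q3 2 1 = 0 ∧ q3 2 2 = 2) ∧ (q3 3 0 = 1 ∧ q3 3 1 = 2 ∧ q3 3 2 = 0) ∧
    (q3 4 0 = 2 ∧ q3 4 1 = 0 ∧ q3 4 2 = 1) ∧ (q3 5 0 = 2 ∧ q3 5 1 = 1 ∧ q3 5 2 = 0) := by
  decide +kernel

theorem Km_true (A : Matrix (Fin 4) (Fin 4) ℂ) (i j : Fin 4) :
    Km true A i j = (A.submatrix i.succAbove j.succAbove).det := by
  have h : ∀ p < 6, phi A (kL true p i j) = A (i.succAbove 0) (j.succAbove (q3 p 0)) *
      (A (i.succAbove 1) (j.succAbove (q3 p 1)) * A (i.succAbove 2) (j.succAbove (q3 p 2))) := by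
    intro p hp
    have h0 := karc_true p hp i j 0
    have h1 := karc_true p hp i j 1
    have h2 := karc_true p hp i j 2
    have e0 : ((0 : Fin 3) : ℕ) = 0 := rfl
    have e1 : ((1 : Fin 3) : ℕ) = 1 := rfl
    have e2 : ((2 : Fin 3) : ℕ) = 2 := rfl
    rw [e0] at h0
    rw [e1] at h1
    rw [e2] at h2
    simp only [phi, kL, List.map_cons, List.map_nil, List.prod_cons, List.prod_nil, mul_one]
    rw [h0, h1, h2, ent_pair, ent_pair, ent_pair]
  obtain ⟨c0, ⟨c10, c11, c12⟩, ⟨c20, c21, c22⟩, ⟨c30, c31, c32⟩, ⟨c40, c41, c42⟩, c50, c51, c52⟩ :=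
    q3_val
  have s0 : ksgn true 0 = 1 := rfl
  have s1 : ksgn true 1 = -1 := rfl
  have s2 : ksgn true 2 = -1 := rfl
  have s3 : ksgn true 3 = 1 := rfl
  have s4 : ksgn true 4 = 1 := rfl
  have s5 : ksgn true 5 = -1 := rfl
  unfold Km
  have hP : kP true = 6 := rfl
  rw [hP, Finset.sum_congr rfl fun p hp => by rw [h p (Finset.mem_range.1 hp)]]
  simp only [Finset.sum_range_succ, Finset.sum_range_zero, zero_add]
  rw [s0, s1, s2, s3, s4, s5, c0, c0, c0, c10, c11, c12, c20, c21, c22, c30, c31, c32, c40, c41,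
    c42, c50, c51, c52, Matrix.det_fin_three]
  simp only [Matrix.submatrix_apply]
  push_cast
  ring

theorem Km_false (A : Matrix (Fin 4) (Fin 4) ℂ) (hd : ∀ i, A i i = 1) (i j : Fin 4) :
    Km false A i j = A i j := by
  unfold Km
  have hP : kP false = 1 := rfl
  have s0 : ksgn false 0 = 1 := rfl
  have h : kL false 0 i j = [4 * (i : ℕ) + j, 0, 0] := rfl
  rw [hP, Finset.sum_range_one, s0, h]
  simp only [phi, List.map_cons, List.map_nil, List.prod_cons, List.prod_nil, mul_one]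
  have h0 : ent A 0 = 1 := hd _
  rw [ent_pair, h0]
  push_cast
  ring

theorem Km_psd (ty : Bool) (A : Matrix (Fin 4) (Fin 4) ℂ) (hA : A.PosSemidef)
    (hd : ∀ i, A i i = 1) : (Matrix.of (Km ty A)).PosSemidef := by
  cases ty with
  | false =>
    have : Matrix.of (Km false A) = A := by ext i j; exact Km_false A hd i j
    rw [this]; exact hA
  | true =>
    have : Matrix.of (Km true A)
        = Matrix.of fun i j : Fin 4 => (A.submatrix i.succAbove j.succAbove).det := by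
      ext i j; exact Km_true A i j
    rw [this]; exact compound_psd A hA

end Pot4
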