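import Mathlib
import Pool.Agent.Lib.Pot4.Ker
import Pool.Agent.Lib.Pot4.Gram

/-!
# Kernel-checked sum-of-squares certificates, part 4: blocks
-/

set_option autoImplicit false

namespace Pot4

open Finset Equiv Matrix
open scoped ComplexOrder

/-- representatives of the 27 orbits of monomials (eight hex digits each, arcs `4 i + j`) -/
def RTab : ℕ := 6592333878137698999578949289545464419270132781099094150594653547892700087904300960688765988975551646659333839157203044809258189934547373919019088167072896237245323006330476418913633373523434376702319135019778596652591747018057401750583505463242629915974041600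

/-- arcs of the representative `o` -/
def repL (o : ℕ) : List ℕ :=
  [dg 4 RTab (Nat.mul 8 o), dg 4 RTab (Nat.add (Nat.mul 8 o) 1), dg 4 RTab (Nat.add (Nat.mul 8 o) 2),
   dg 4 RTab (Nat.add (Nat.mul 8 o) 3), dg 4 RTab (Nat.add (Nat.mul 8 o) 4),
   dg 4 RTab (Nat.add (Nat.mul 8 o) 5), dg 4 RTab (Nat.add (Nat.mul 8 o) 6)]

theorem repL_lt (o : ℕ) : ∀ c ∈ repL o, c < 16 := by
  intro c hc
  simp only [repL, List.mem_cons, List.not_mem_nil, or_false] at hc
  rcases hc with h | h | h | h | h | h | h <;> rw [h] <;> exact dg_lt 4 _ _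

/-- the orbit sum number `c` -/
noncomputable def Psi {K : ℕ} [NeZero K] (act : Perm (Fin 4) → Fin K → Fin K)
    (A : Matrix (Fin 4) (Fin 4) ℂ) (x : Fin K → ℂ) (c : ℕ) : ℂ :=
  Phi act A x (repL (c / (K * K))) (Fin.ofNat K (c / K % K)) (Fin.ofNat K (c % K))

/-- number of the class of `(rep o, k, l)` -/
def cls (K o k l : ℕ) : ℕ := Nat.add (Nat.mul (Nat.add (Nat.mul o K) k) K) l

theorem cls_div {K o k l : ℕ} (hk : k < K) (hl : l < K) :
    cls K o k l / (K * K) = o ∧ cls K o k l / K % K = k ∧ cls K o k l % K = l := by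
  have hK : 0 < K := lt_of_le_of_lt (Nat.zero_le _) hk
  have h : cls K o k l = (o * K + k) * K + l := rfl
  have h1 : cls K o k l / K = o * K + k := by
    rw [h, mul_comm, Nat.mul_add_div hK, Nat.div_eq_of_lt hl, add_zero]
  refine ⟨?_, ?_, ?_⟩
  · rw [← Nat.div_div_eq_div_mul, h1, mul_comm, Nat.mul_add_div hK, Nat.div_eq_of_lt hk, add_zero]
  · rw [h1, mul_comm, Nat.mul_add_mod, Nat.mod_eq_of_lt hk]
  · rw [h, mul_comm, Nat.mul_add_mod, Nat.mod_eq_of_lt hl]

/-- data of a block -/
structure Blk where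
  /-- kernel type -/
  ty : Bool
  /-- number of basis vectors -/
  n : ℕ
  /-- number of words -/
  nW : ℕ
  /-- words, 16 bits -/
  W : ℕ
  /-- basis, 4 bits -/
  B : ℕ
  /-- Gram matrix times basis, 24 bits -/
  H : ℕ
  /-- Gram matrix, 24 bits -/
  G : ℕ
  /-- scale of the square root -/
  c : ℕ
  /-- approximate square root, 24 bits -/
  M : ℕ
  /-- orbits of the monomials, 10 bits -/
  T : ℕ
  /-- result, 32 bits -/
  C : ℕ

namespace Blk

variable (d : Blk) (K : ℕ)

/-- word -/
def w (i : ℕ) : ℕ := dg 16 d.W i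

/-- basis coefficient -/
def b (a i k : ℕ) : ℤ := sdg 4 d.B (Nat.add (Nat.mul a (Nat.mul d.nW K)) (Nat.add (Nat.mul i K) k))

/-- coefficient of Gram matrix times basis -/
def h (a i k : ℕ) : ℤ := sdg 24 d.H (Nat.add (Nat.mul a (Nat.mul d.nW K)) (Nat.add (Nat.mul i K) k))

/-- Gram matrix -/
def g (a b : ℕ) : ℤ := sdg 24 d.G (Nat.add (Nat.mul a d.n) b)

/-- square root -/
def m (t a : ℕ) : ℤ := sdg 24 d.M (Nat.add (Nat.mul t d.n) a)

/-- hint: `32 o + h` -/
def hint (i j p : ℕ) : ℕ := dg 10 d.T (Nat.add (Nat.mul (Nat.add (Nat.mul i d.nW) j) (kP d.ty)) p)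

/-- orbit -/
def ho (i j p : ℕ) : ℕ := Nat.div (d.hint i j p) 32

/-- permutation -/
def hh (i j p : ℕ) : ℕ := Nat.mod (d.hint i j p) 32

/-- resulting coefficients -/
def Cc (c : ℕ) : ℤ := sdg 32 d.C c

/-- first check: the Gram matrix is positive -/
def chkG : Bool :=
  allN d.n (fun a => allN d.n fun b => decide (d.g a b = d.g b a)) &&
  allN d.n (fun a => decide (sumZ d.n (fun b =>
      Int.ofNat (Int.natAbs (d.c * d.g a b - sumZ d.n fun t => Int.mul (d.m t a) (d.m t b))))
    ≤ 2 * (d.c * d.g a a - sumZ d.n fun t => Int.mul (d.m t a) (d.m t a)))) &&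
  decide (0 < d.c)

/-- second check: `H = G B` -/
def chkH : Bool :=
  allN d.n fun a => allN d.nW fun i => allN K fun k =>
    decide (d.h K a i k = sumZ d.n fun b => Int.mul (d.g a b) (d.b K b i k))

/-- third check: the orbits of the monomials -/
def chkT : Bool :=
  allN d.nW fun i => allN d.nW fun j => allN (kP d.ty) fun p =>
    Nat.blt (d.ho i j p) 27 && Nat.blt (d.hh i j p) 24 &&
      Nat.beq (pcode (d.hh i j p) (Mon d.ty p (d.w i) (d.w j))) (pcode0 (repL (d.ho i j p)))

/-- `2 ^ (48 e)` -/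
def pw (e : ℕ) : ℤ := Int.ofNat (Nat.pow 2 (Nat.mul 48 e))

/-- the accumulated integer -/
def acc (T : ℕ) : ℤ :=
  sumZ d.n fun a => sumZ d.nW fun i =>
    Bool.rec
      (sumZ d.nW fun j => sumZ (kP d.ty) fun p =>
        Int.mul (Int.mul (ksgn d.ty p) (pw (Nat.mul (d.ho i j p) (Nat.mul K K))))
          (Int.mul
            (sumZ K fun k => Int.mul (d.b K a i k) (pw (Nat.mul K (kf T (d.hh i j p) k))))
            (sumZ K fun l => Int.mul (d.h K a j l) (pw (kf T (d.hh i j p) l)))))
      0 (allN K fun k => decide (d.b K a i k = 0))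

/-- fourth check -/
def chkC (T : ℕ) : Bool :=
  decide (d.acc K T = sumZ (27 * (K * K)) fun c => Int.mul (d.Cc c) (pw c))

/-- fifth check: sizes -/
def chkS : Bool :=
  Nat.ble (Nat.mul (Nat.mul (Nat.mul d.n (Nat.mul d.nW d.nW)) (kP d.ty)) (Nat.mul K K)) (2 ^ 20)

end Blk

end Pot4
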