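import Mathlib
import Pool.Agent.Lib.Pot4.Blk

/-!
# Kernel-checked sum-of-squares certificates, part 5: a checked block gives an inequality
-/

set_option autoImplicit false

namespace Pot4

open Finset Equiv Matrix
open scoped ComplexOrder

theorem sum_slot {ι : Type*} (E : Finset ι) (s : ι → Fin 4) (X : ι → ℂ) (F : Fin 4 → ℂ) :
    ∑ i, (∑ e ∈ E, if s e = i then X e else 0) * F i = ∑ e ∈ E, X e * F (s e) := by
  have h : ∀ i, (∑ e ∈ E, if s e = i then X e else 0) * F i
      = ∑ e ∈ E, if s e = i then X e * F i else 0 := by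
    intro i
    rw [Finset.sum_mul]
    refine Finset.sum_congr rfl fun e _ => ?_
    split_ifs <;> simp
  rw [Finset.sum_congr rfl fun i _ => h i, Finset.sum_comm]
  refine Finset.sum_congr rfl fun e _ => ?_
  rw [Finset.sum_ite_eq, if_pos (Finset.mem_univ _)]

theorem reorder (nW K P : ℕ) (F : ℕ → ℕ → ℕ → ℕ → ℕ → ℂ) :
    ∑ e ∈ range nW ×ˢ range K, ∑ f ∈ range nW ×ˢ range K, ∑ p ∈ range P, F e.1 f.1 p e.2 f.2
      = ∑ i ∈ range nW, ∑ j ∈ range nW, ∑ p ∈ range P, ∑ k ∈ range K, ∑ l ∈ range K,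
        F i j p k l := by
  rw [Finset.sum_product]
  refine Finset.sum_congr rfl fun i _ => ?_
  have h1 : ∀ k ∈ range K, (∑ f ∈ range nW ×ˢ range K, ∑ p ∈ range P, F i f.1 p k f.2)
      = ∑ j ∈ range nW, ∑ p ∈ range P, ∑ l ∈ range K, F i j p k l := by
    intro k _
    rw [Finset.sum_product]
    refine Finset.sum_congr rfl fun j _ => ?_
    exact Finset.sum_comm
  rw [Finset.sum_congr rfl h1, Finset.sum_comm]
  refine Finset.sum_congr rfl fun j _ => ?_
  exact Finset.sum_comm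

/-- the slot as an element of `Fin 4` -/
def sl (w : ℕ) : Fin 4 := ⟨wslot w, wslot_lt w⟩

/-- arcs of a word -/
def arcs (w : ℕ) : List ℕ := [warc w 0, warc w 1, warc w 2]

/-- reversed arcs of a word -/
def rarcs (w : ℕ) : List ℕ := [rv (warc w 0), rv (warc w 1), rv (warc w 2)]

/-- vector with coefficients `u` -/
noncomputable def zv (nW K : ℕ) [NeZero K] (w : ℕ → ℕ) (u : ℕ → ℕ → ℤ)
    (A : Matrix (Fin 4) (Fin 4) ℂ) (x : Fin K → ℂ) (s : Fin 4) : ℂ :=
  ∑ e ∈ range nW ×ˢ range K,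
    if sl (w e.1) = s then (u e.1 e.2 : ℂ) * (phi A (arcs (w e.1)) * star (x (Fin.ofNat K e.2)))
    else 0

theorem SF_zv (ty : Bool) (nW K : ℕ) [NeZero K] (w : ℕ → ℕ) (u v : ℕ → ℕ → ℤ)
    (A : Matrix (Fin 4) (Fin 4) ℂ) (hA : A.IsHermitian) (x : Fin K → ℂ) :
    SF (Matrix.of (Km ty A)) (zv nW K w u A x) (zv nW K w v A x)
      = ∑ i ∈ range nW, ∑ j ∈ range nW, ∑ p ∈ range (kP ty), ∑ k ∈ range K, ∑ l ∈ range K,
        ((ksgn ty p * (u i k * v j l) : ℤ) : ℂ) *
          (phi A (Mon ty p (w i) (w j)) * (x (Fin.ofNat K k) * star (x (Fin.ofNat K l)))) := by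
  rw [← reorder nW K (kP ty) (fun i j p k l => ((ksgn ty p * (u i k * v j l) : ℤ) : ℂ) *
          (phi A (Mon ty p (w i) (w j)) * (x (Fin.ofNat K k) * star (x (Fin.ofNat K l)))))]
  have h1 : ∀ s, star (zv nW K w u A x s) = ∑ e ∈ range nW ×ˢ range K,
      if sl (w e.1) = s then (u e.1 e.2 : ℂ) * (phi A (rarcs (w e.1)) * x (Fin.ofNat K e.2))
      else 0 := by
    intro s
    unfold zv
    rw [star_sum]
    refine Finset.sum_congr rfl fun e _ => ?_
    split_ifs
    · have h2 : star ((u e.1 e.2 : ℤ) : ℂ) = (u e.1 e.2 : ℂ) := by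
        exact star_intCast _
      rw [star_mul', star_mul', star_star, h2]
      congr 2
      exact star_phi3 A hA (w e.1)
    · exact star_zero _
  have h3 : SF (Matrix.of (Km ty A)) (zv nW K w u A x) (zv nW K w v A x)
      = ∑ i, star (zv nW K w u A x i) * ∑ j, zv nW K w v A x j * Km ty A i j := by
    unfold SF
    refine Finset.sum_congr rfl fun i _ => ?_
    rw [Finset.mul_sum]
    refine Finset.sum_congr rfl fun j _ => ?_
    rw [Matrix.of_apply]; ring
  rw [h3]
  simp only [h1]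
  rw [sum_slot]
  refine Finset.sum_congr rfl fun e _ => ?_
  have h4 : ∑ j, zv nW K w v A x j * Km ty A (sl (w e.1)) j
      = ∑ f ∈ range nW ×ˢ range K,
        ((v f.1 f.2 : ℂ) * (phi A (arcs (w f.1)) * star (x (Fin.ofNat K f.2)))) *
          Km ty A (sl (w e.1)) (sl (w f.1)) := by
    unfold zv
    exact sum_slot _ _ _ _
  rw [h4, Finset.mul_sum]
  refine Finset.sum_congr rfl fun f _ => ?_
  unfold Km
  rw [Finset.mul_sum, Finset.mul_sum]
  refine Finset.sum_congr rfl fun p _ => ?_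
  have h5 := phi_mon ty p (w e.1) (w f.1) A
  have h6 : phi A (Mon ty p (w e.1) (w f.1)) = phi A (rarcs (w e.1)) * phi A (arcs (w f.1)) *
    phi A (kL ty p (sl (w e.1)) (sl (w f.1))) := h5
  rw [h6]
  push_cast
  ring

/-- data-free form of the sum of a block -/
theorem sym_nonneg (ty : Bool) (n nW K : ℕ) [NeZero K] (act : Perm (Fin 4) → Fin K → Fin K)
    (w : ℕ → ℕ) (g m : ℕ → ℕ → ℤ) (c : ℤ) (b h : ℕ → ℕ → ℕ → ℤ) (hc : 0 < c)
    (hsym : ∀ a < n, ∀ b < n, g a b = g b a)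
    (hdd : ∀ a < n, ∑ b ∈ range n, |c * g a b - ∑ t ∈ range n, m t a * m t b|
      ≤ 2 * (c * g a a - ∑ t ∈ range n, m t a * m t a))
    (hh : ∀ a < n, ∀ i < nW, ∀ k < K, h a i k = ∑ e ∈ range n, g a e * b e i k)
    (A : Matrix (Fin 4) (Fin 4) ℂ) (hA : A.PosSemidef) (hd : ∀ i, A i i = 1) (x : Fin K → ℂ) :
    0 ≤ (∑ a ∈ range n, ∑ i ∈ range nW, ∑ j ∈ range nW, ∑ p ∈ range (kP ty), ∑ k ∈ range K,
      ∑ l ∈ range K, ((ksgn ty p * (b a i k * h a j l) : ℤ) : ℂ) *
        Phi act A x (Mon ty p (w i) (w j)) (Fin.ofNat K k) (Fin.ofNat K l)).re := by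
  -- one permutation
  have h1 : ∀ (A : Matrix (Fin 4) (Fin 4) ℂ) (x : Fin K → ℂ), A.PosSemidef → (∀ i, A i i = 1) →
      0 ≤ (∑ a ∈ range n, ∑ i ∈ range nW, ∑ j ∈ range nW, ∑ p ∈ range (kP ty), ∑ k ∈ range K,
      ∑ l ∈ range K, ((ksgn ty p * (b a i k * h a j l) : ℤ) : ℂ) *
        (phi A (Mon ty p (w i) (w j)) * (x (Fin.ofNat K k) * star (x (Fin.ofNat K l))))).re := by
    intro A x hA hd
    have h2 := gram_nonneg n g m c hc hsym hdd (Matrix.of (Km ty A)) (Km_psd ty A hA hd)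
      (fun a => zv nW K w (b a) A x)
    have h3 : ∀ a ∈ range n, ∑ e ∈ range n, (g a e : ℂ) *
        SF (Matrix.of (Km ty A)) (zv nW K w (b a) A x) (zv nW K w (b e) A x)
        = SF (Matrix.of (Km ty A)) (zv nW K w (b a) A x) (zv nW K w (h a) A x) := by
      intro a ha
      have h4 : zv nW K w (h a) A x = ∑ e ∈ range n, ((g a e : ℝ) : ℂ) • zv nW K w (b e) A x := by
        funext s
        rw [Finset.sum_apply]
        simp only [Pi.smul_apply, smul_eq_mul, zv, Finset.mul_sum]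
        rw [Finset.sum_comm]
        refine Finset.sum_congr rfl fun e he => ?_
        rw [Finset.mem_product, mem_range, mem_range] at he
        split_ifs
        · rw [hh a (mem_range.1 ha) e.1 he.1 e.2 he.2]
          push_cast
          rw [Finset.sum_mul]
          refine Finset.sum_congr rfl fun q _ => ?_
          ring
        · simp
      rw [h4, SF_sum_right]
      refine Finset.sum_congr rfl fun e _ => ?_
      rw [SF_smul_right]
      push_cast
      rfl
    rw [Finset.sum_congr rfl h3] at h2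
    rw [Finset.sum_congr rfl fun a _ => SF_zv ty nW K w (b a) (h a) A hA.1 x] at h2
    exact h2
  have h5 : ∑ a ∈ range n, ∑ i ∈ range nW, ∑ j ∈ range nW, ∑ p ∈ range (kP ty), ∑ k ∈ range K,
      ∑ l ∈ range K, ((ksgn ty p * (b a i k * h a j l) : ℤ) : ℂ) *
        Phi act A x (Mon ty p (w i) (w j)) (Fin.ofNat K k) (Fin.ofNat K l)
      = ∑ σ : Perm (Fin 4), ∑ a ∈ range n, ∑ i ∈ range nW, ∑ j ∈ range nW, ∑ p ∈ range (kP ty),
        ∑ k ∈ range K, ∑ l ∈ range K, ((ksgn ty p * (b a i k * h a j l) : ℤ) : ℂ) *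
        (phi (A.submatrix σ σ) (Mon ty p (w i) (w j)) *
          (x (act σ (Fin.ofNat K k)) * star (x (act σ (Fin.ofNat K l))))) := by
    symm
    rw [Finset.sum_comm]
    refine Finset.sum_congr rfl fun a _ => ?_
    rw [Finset.sum_comm]
    refine Finset.sum_congr rfl fun i _ => ?_
    rw [Finset.sum_comm]
    refine Finset.sum_congr rfl fun j _ => ?_
    rw [Finset.sum_comm]
    refine Finset.sum_congr rfl fun p _ => ?_
    rw [Finset.sum_comm]
    refine Finset.sum_congr rfl fun k _ => ?_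
    rw [Finset.sum_comm]
    refine Finset.sum_congr rfl fun l _ => ?_
    unfold Phi
    rw [Finset.mul_sum]
  rw [h5, Complex.re_sum]
  refine Finset.sum_nonneg fun σ _ => ?_
  exact h1 (A.submatrix σ σ) (fun k => x (act σ k)) (hA.submatrix σ) (fun i => hd (σ i))

end Pot4
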