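import Mathlib
import Pool.Agent.Lib.Pot4.BlkThm

/-!
# Kernel-checked sum-of-squares certificates, part 6: the theorem on checked blocks
-/

set_option autoImplicit false

namespace Pot4

open Finset Equiv Matrix
open scoped ComplexOrder

theorem abs_ksgn (ty : Bool) (p : ℕ) : |ksgn ty p| ≤ 1 := by
  unfold ksgn
  cases ty with
  | false => exact le_refl _
  | true =>
    show |(Bool.rec (Int.ofNat 1) (Int.negSucc 0) (Nat.testBit 38 p) : ℤ)| ≤ 1
    cases Nat.testBit 38 p <;> decide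

theorem pw_eq (e : ℕ) : Blk.pw e = (2 ^ 48 : ℤ) ^ e := by
  unfold Blk.pw
  rw [← pow_mul]
  show ((2 ^ (48 * e) : ℕ) : ℤ) = _
  push_cast
  rfl

theorem pw_add (a b : ℕ) : Blk.pw (a + b) = Blk.pw a * Blk.pw b := by
  rw [pw_eq, pw_eq, pw_eq, pow_add]

theorem pw_cls (K o k l : ℕ) :
    Blk.pw (cls K o k l) = Blk.pw (o * (K * K)) * (Blk.pw (K * k) * Blk.pw l) := by
  rw [← pw_add, ← pw_add]
  congr 1
  show (o * K + k) * K + l = _
  ring

namespace Blk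

variable (d : Blk) (K : ℕ)

theorem acc_eq (T : ℕ) : d.acc K T = ∑ a ∈ range d.n, ∑ i ∈ range d.nW, ∑ j ∈ range d.nW,
    ∑ p ∈ range (kP d.ty), ∑ k ∈ range K, ∑ l ∈ range K,
      (ksgn d.ty p * (d.b K a i k * d.h K a j l)) *
        pw (cls K (d.ho i j p) (kf T (d.hh i j p) k) (kf T (d.hh i j p) l)) := by
  unfold acc
  rw [sumZ_eq]
  refine Finset.sum_congr rfl fun a _ => ?_
  rw [sumZ_eq]
  refine Finset.sum_congr rfl fun i _ => ?_
  have hmain : (sumZ d.nW fun j => sumZ (kP d.ty) fun p =>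
        Int.mul (Int.mul (ksgn d.ty p) (pw (Nat.mul (d.ho i j p) (Nat.mul K K))))
          (Int.mul
            (sumZ K fun k => Int.mul (d.b K a i k) (pw (Nat.mul K (kf T (d.hh i j p) k))))
            (sumZ K fun l => Int.mul (d.h K a j l) (pw (kf T (d.hh i j p) l)))))
      = ∑ j ∈ range d.nW,
    ∑ p ∈ range (kP d.ty), ∑ k ∈ range K, ∑ l ∈ range K,
      (ksgn d.ty p * (d.b K a i k * d.h K a j l)) *
        pw (cls K (d.ho i j p) (kf T (d.hh i j p) k) (kf T (d.hh i j p) l)) := by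
    rw [sumZ_eq]
    refine Finset.sum_congr rfl fun j _ => ?_
    rw [sumZ_eq]
    refine Finset.sum_congr rfl fun p _ => ?_
    show (ksgn d.ty p * pw (d.ho i j p * (K * K))) * (
            (sumZ K fun k => d.b K a i k * pw (K * kf T (d.hh i j p) k)) *
            (sumZ K fun l => d.h K a j l * pw (kf T (d.hh i j p) l))) = _
    rw [sumZ_eq, sumZ_eq, Finset.sum_mul_sum, Finset.mul_sum]
    refine Finset.sum_congr rfl fun k _ => ?_
    rw [Finset.mul_sum]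
    refine Finset.sum_congr rfl fun l _ => ?_
    rw [pw_cls]
    ring
  cases hz : allN K fun k => decide (d.b K a i k = 0) with
  | false => exact hmain
  | true =>
    show (0 : ℤ) = _
    rw [allN_iff] at hz
    symm
    refine Finset.sum_eq_zero fun j _ => Finset.sum_eq_zero fun p _ =>
      Finset.sum_eq_zero fun k hk => Finset.sum_eq_zero fun l _ => ?_
    have h1 := of_decide_eq_true (hz k (mem_range.1 hk))
    rw [h1]
    ring

/-- a checked block gives an inequality -/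
theorem nonneg {K : ℕ} [NeZero K] {act : Perm (Fin 4) → Fin K → Fin K} {T : ℕ}
    (hact : Compat act T) (hS : d.chkS K = true) (hG : d.chkG = true) (hH : d.chkH K = true)
    (hT : d.chkT = true) (hC : d.chkC K T = true)
    (A : Matrix (Fin 4) (Fin 4) ℂ) (hA : A.PosSemidef) (hd : ∀ i, A i i = 1) (x : Fin K → ℂ) :
    0 ≤ (∑ c ∈ range (27 * (K * K)), (d.Cc c : ℂ) * Psi act A x c).re := by
  -- unpack the checks
  unfold chkG at hG
  rw [Bool.and_eq_true, Bool.and_eq_true] at hG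
  obtain ⟨⟨hG1, hG2⟩, hG3⟩ := hG
  rw [allN_iff] at hG1 hG2
  have hG1' : ∀ a < d.n, ∀ b < d.n, d.g a b = d.g b a := by
    intro a ha b hb
    have h1 := hG1 a ha
    rw [allN_iff] at h1
    exact of_decide_eq_true (h1 b hb)
  have hG2' : ∀ a < d.n, ∑ b ∈ range d.n,
      |(d.c : ℤ) * d.g a b - ∑ t ∈ range d.n, d.m t a * d.m t b|
      ≤ 2 * ((d.c : ℤ) * d.g a a - ∑ t ∈ range d.n, d.m t a * d.m t a) := by
    intro a ha
    have h1 := of_decide_eq_true (hG2 a ha)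
    rw [sumZ_eq, sumZ_eq] at h1
    have h2 : ∀ b, Int.ofNat (Int.natAbs (d.c * d.g a b - sumZ d.n fun t =>
        Int.mul (d.m t a) (d.m t b)))
        = |(d.c : ℤ) * d.g a b - ∑ t ∈ range d.n, d.m t a * d.m t b| := by
      intro b
      rw [sumZ_eq]
      exact Int.natCast_natAbs _
    rw [Finset.sum_congr rfl fun b _ => h2 b] at h1
    exact h1
  have hG3' : (0 : ℤ) < d.c := by exact_mod_cast of_decide_eq_true hG3
  unfold chkH at hH
  rw [allN_iff] at hH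
  have hH' : ∀ a < d.n, ∀ i < d.nW, ∀ k < K,
      d.h K a i k = ∑ e ∈ range d.n, d.g a e * d.b K e i k := by
    intro a ha i hi k hk
    have h1 := hH a ha
    rw [allN_iff] at h1
    have h2 := h1 i hi
    rw [allN_iff] at h2
    have h3 := of_decide_eq_true (h2 k hk)
    rw [sumZ_eq] at h3
    exact h3
  unfold chkT at hT
  rw [allN_iff] at hT
  have hT' : ∀ i < d.nW, ∀ j < d.nW, ∀ p < kP d.ty, d.ho i j p < 27 ∧ d.hh i j p < 24 ∧
      pcode (d.hh i j p) (Mon d.ty p (d.w i) (d.w j)) = pcode0 (repL (d.ho i j p)) := by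
    intro i hi j hj p hp
    have h1 := hT i hi
    rw [allN_iff] at h1
    have h2 := h1 j hj
    rw [allN_iff] at h2
    have h3 := h2 p hp
    rw [Bool.and_eq_true, Bool.and_eq_true] at h3
    obtain ⟨⟨h4, h5⟩, h6⟩ := h3
    have e4 : ∀ a b : ℕ, Nat.blt a b = true → a < b := by
      intro a b hab
      exact Nat.le_of_ble_eq_true hab
    exact ⟨e4 _ _ h4, e4 _ _ h5, Nat.eq_of_beq_eq_true h6⟩
  have hC' := of_decide_eq_true hC
  have hS' : d.n * (d.nW * d.nW) * kP d.ty * (K * K) ≤ 2 ^ 20 := Nat.le_of_ble_eq_true hS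
  -- positivity
  have hpos := sym_nonneg d.ty d.n d.nW K act d.w d.g d.m d.c (d.b K) (d.h K) hG3' hG1' hG2' hH'
    A hA hd x
  -- classes
  have hkf : ∀ h < 24, ∀ k < K, kf T h k < K := by
    intro h hh k hk
    obtain ⟨σ, _, h2⟩ := hact.2 h hh
    have h3 := h2 ⟨k, hk⟩
    show kf T h ((⟨k, hk⟩ : Fin K) : ℕ) < K
    rw [← h3]
    exact (act σ ⟨k, hk⟩).isLt
  let E : Finset (ℕ × ℕ × ℕ × ℕ × ℕ × ℕ) :=
    range d.n ×ˢ range d.nW ×ˢ range d.nW ×ˢ range (kP d.ty) ×ˢ range K ×ˢ range K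
  let wt : ℕ × ℕ × ℕ × ℕ × ℕ × ℕ → ℤ := fun e =>
    ksgn d.ty e.2.2.2.1 * (d.b K e.1 e.2.1 e.2.2.2.2.1 * d.h K e.1 e.2.2.1 e.2.2.2.2.2)
  let cl : ℕ × ℕ × ℕ × ℕ × ℕ × ℕ → ℕ := fun e =>
    cls K (d.ho e.2.1 e.2.2.1 e.2.2.2.1) (kf T (d.hh e.2.1 e.2.2.1 e.2.2.2.1) e.2.2.2.2.1)
      (kf T (d.hh e.2.1 e.2.2.1 e.2.2.2.1) e.2.2.2.2.2)
  have hmem : ∀ e ∈ E, e.2.1 < d.nW ∧ e.2.2.1 < d.nW ∧ e.2.2.2.1 < kP d.ty ∧ e.2.2.2.2.1 < K ∧
      e.2.2.2.2.2 < K := by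
    intro e he
    simp only [E, Finset.mem_product, mem_range] at he
    exact ⟨he.2.1, he.2.2.1, he.2.2.2.1, he.2.2.2.2.1, he.2.2.2.2.2⟩
  have hcl : ∀ e ∈ E, cl e < 27 * (K * K) := by
    intro e he
    obtain ⟨h1, h2, h3, h4, h5⟩ := hmem e he
    obtain ⟨h6, h7, h8⟩ := hT' _ h1 _ h2 _ h3
    have k1 := hkf _ h7 _ h4
    have k2 := hkf _ h7 _ h5
    show (d.ho e.2.1 e.2.2.1 e.2.2.2.1 * K + kf T (d.hh e.2.1 e.2.2.1 e.2.2.2.1) e.2.2.2.2.1) * K
      + kf T (d.hh e.2.1 e.2.2.1 e.2.2.2.1) e.2.2.2.2.2 < 27 * (K * K)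
    calc (d.ho e.2.1 e.2.2.1 e.2.2.2.1 * K +
          kf T (d.hh e.2.1 e.2.2.1 e.2.2.2.1) e.2.2.2.2.1) * K
          + kf T (d.hh e.2.1 e.2.2.1 e.2.2.2.1) e.2.2.2.2.2
        < (d.ho e.2.1 e.2.2.1 e.2.2.2.1 * K +
          kf T (d.hh e.2.1 e.2.2.1 e.2.2.2.1) e.2.2.2.2.1) * K + K := by omega
      _ = (d.ho e.2.1 e.2.2.1 e.2.2.2.1 * K +
          kf T (d.hh e.2.1 e.2.2.1 e.2.2.2.1) e.2.2.2.2.1 + 1) * K := by ring
      _ ≤ (26 * K + K) * K := by
          apply Nat.mul_le_mul_right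
          have : d.ho e.2.1 e.2.2.1 e.2.2.2.1 * K ≤ 26 * K :=
            Nat.mul_le_mul_right K (by omega)
          omega
      _ = 27 * (K * K) := by ring
  have hw : ∑ e ∈ E, |wt e| ≤ 2 ^ 46 := by
    have h1 : ∀ e ∈ E, |wt e| ≤ 2 ^ 26 := by
      intro e _
      have b1 : |d.b K e.1 e.2.1 e.2.2.2.2.1| ≤ 2 ^ (4 - 1) := abs_sdg_le 4 _ _ (by norm_num)
      have b2 : |d.h K e.1 e.2.2.1 e.2.2.2.2.2| ≤ 2 ^ (24 - 1) := abs_sdg_le 24 _ _ (by norm_num)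
      have b3 := abs_ksgn d.ty e.2.2.2.1
      show |ksgn d.ty e.2.2.2.1 *
        (d.b K e.1 e.2.1 e.2.2.2.2.1 * d.h K e.1 e.2.2.1 e.2.2.2.2.2)| ≤ 2 ^ 26
      rw [abs_mul, abs_mul]
      calc |ksgn d.ty e.2.2.2.1| *
            (|d.b K e.1 e.2.1 e.2.2.2.2.1| * |d.h K e.1 e.2.2.1 e.2.2.2.2.2|)
          ≤ 1 * (2 ^ (4 - 1) * 2 ^ (24 - 1)) := by
            apply mul_le_mul b3 _ (by positivity) (by norm_num)
            exact mul_le_mul b1 b2 (abs_nonneg _) (by norm_num)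
        _ = 2 ^ 26 := by norm_num
    have h2 := Finset.sum_le_card_nsmul E (fun e => |wt e|) (2 ^ 26) h1
    have h3 : E.card ≤ 2 ^ 20 := by
      have h4 : E.card = d.n * (d.nW * d.nW) * kP d.ty * (K * K) := by
        simp only [E, Finset.card_product, Finset.card_range]
        ring
      rw [h4]; exact hS'
    refine le_trans h2 ?_
    rw [nsmul_eq_mul]
    calc ((E.card : ℕ) : ℤ) * 2 ^ 26 ≤ ((2 ^ 20 : ℕ) : ℤ) * 2 ^ 26 := by
          apply mul_le_mul_of_nonneg_right _ (by norm_num)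
          exact_mod_cast h3
      _ = 2 ^ 46 := by norm_num
  have hCb : ∀ c < 27 * (K * K), |d.Cc c| ≤ 2 ^ 31 := fun c _ => abs_sdg_le 32 _ _ (by norm_num)
  have hacc : ∑ e ∈ E, wt e * ((2 : ℤ) ^ 48) ^ (cl e)
      = ∑ c ∈ range (27 * (K * K)), d.Cc c * ((2 : ℤ) ^ 48) ^ c := by
    rw [sumZ_eq, acc_eq] at hC'
    have h1 : ∑ e ∈ E, wt e * ((2 : ℤ) ^ 48) ^ (cl e)
        = ∑ a ∈ range d.n, ∑ i ∈ range d.nW, ∑ j ∈ range d.nW,
    ∑ p ∈ range (kP d.ty), ∑ k ∈ range K, ∑ l ∈ range K,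
      (ksgn d.ty p * (d.b K a i k * d.h K a j l)) *
        pw (cls K (d.ho i j p) (kf T (d.hh i j p) k) (kf T (d.hh i j p) l)) := by
      simp only [E, Finset.sum_product, wt, cl, pw_eq]
    rw [h1, hC']
    refine Finset.sum_congr rfl fun c _ => ?_
    show d.Cc c * pw c = _
    rw [pw_eq]
  have hkey := key E wt cl (27 * (K * K)) hcl d.Cc (2 ^ 48) (2 ^ 46) (2 ^ 31) hw hCb (by norm_num)
    hacc (Psi act A x)
  rw [← hkey]
  have h9 : ∑ e ∈ E, (wt e : ℂ) * Psi act A x (cl e)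
      = ∑ a ∈ range d.n, ∑ i ∈ range d.nW, ∑ j ∈ range d.nW, ∑ p ∈ range (kP d.ty),
        ∑ k ∈ range K, ∑ l ∈ range K, ((ksgn d.ty p * (d.b K a i k * d.h K a j l) : ℤ) : ℂ) *
        Phi act A x (Mon d.ty p (d.w i) (d.w j)) (Fin.ofNat K k) (Fin.ofNat K l) := by
    simp only [E, Finset.sum_product, wt, cl]
    refine Finset.sum_congr rfl fun a _ => ?_
    refine Finset.sum_congr rfl fun i hi => ?_
    refine Finset.sum_congr rfl fun j hj => ?_
    refine Finset.sum_congr rfl fun p hp => ?_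
    refine Finset.sum_congr rfl fun k hk => ?_
    refine Finset.sum_congr rfl fun l hl => ?_
    rw [mem_range] at hi hj hp hk hl
    congr 1
    obtain ⟨h6, h7, h8⟩ := hT' _ hi _ hj _ hp
    have k1 := hkf _ h7 _ hk
    have k2 := hkf _ h7 _ hl
    obtain ⟨c1, c2, c3⟩ := cls_div (o := d.ho i j p) k1 k2
    unfold Psi
    rw [c1, c2, c3]
    symm
    refine Phi_move hact A hd x _ _ (Mon_lt _ _ _ _ hp) (repL_lt _) _ h7 h8 _ _ _ _ ?_ ?_
    · show kf T (d.hh i j p) k % K = kf T (d.hh i j p) ((Fin.ofNat K k : Fin K) : ℕ)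
      have e1 : ((Fin.ofNat K k : Fin K) : ℕ) = k := Nat.mod_eq_of_lt hk
      rw [e1, Nat.mod_eq_of_lt k1]
    · show kf T (d.hh i j p) l % K = kf T (d.hh i j p) ((Fin.ofNat K l : Fin K) : ℕ)
      have e1 : ((Fin.ofNat K l : Fin K) : ℕ) = l := Nat.mod_eq_of_lt hl
      rw [e1, Nat.mod_eq_of_lt k2]
  rw [h9]
  exact hpos

end Blk

end Pot4
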