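import Mathlib
import Pool.Agent.Lib.Pot4.BlkFin

/-!
# Kernel-checked sum-of-squares certificates, part 7: comparison with the form
-/

set_option autoImplicit false

namespace Pot4

open Finset Equiv Matrix
open scoped ComplexOrder

/-- two groupings with the same integer give the same sum -/
theorem key2 {ι ι' : Type*} (E : Finset ι) (E' : Finset ι') (w : ι → ℤ) (w' : ι' → ℤ)
    (cl : ι → ℕ) (cl' : ι' → ℕ) (m : ℕ) (hc : ∀ e ∈ E, cl e < m) (hc' : ∀ e ∈ E', cl' e < m)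
    (t b1 b2 : ℤ) (hw : ∑ e ∈ E, |w e| ≤ b1) (hw' : ∑ e ∈ E', |w' e| ≤ b2)
    (hb1 : b1 + b2 < t) (hb2 : b2 + b2 < t)
    (hacc : ∑ e ∈ E, w e * t ^ (cl e) = ∑ e ∈ E', w' e * t ^ (cl' e)) (Ψ : ℕ → ℂ) :
    ∑ e ∈ E, (w e : ℂ) * Ψ (cl e) = ∑ e ∈ E', (w' e : ℂ) * Ψ (cl' e) := by
  classical
  set C : ℕ → ℤ := fun c => ∑ e ∈ E', if cl' e = c then w' e else 0 with hCdef
  have hC : ∀ c < m, |C c| ≤ b2 := by
    intro c _
    refine le_trans (Finset.abs_sum_le_sum_abs _ _) (le_trans (Finset.sum_le_sum fun e _ => ?_) hw')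
    split_ifs
    · exact le_refl _
    · rw [abs_zero]; exact abs_nonneg _
  have h1 : ∑ e ∈ E', w' e * t ^ (cl' e) = ∑ c ∈ range m, C c * t ^ c := by
    have h2 : ∀ c ∈ range m, C c * t ^ c = ∑ e ∈ E', if cl' e = c then w' e * t ^ c else 0 := by
      intro c _
      rw [hCdef, Finset.sum_mul]
      refine Finset.sum_congr rfl fun e _ => ?_
      split_ifs <;> simp
    rw [Finset.sum_congr rfl h2, Finset.sum_comm]
    refine Finset.sum_congr rfl fun e he => ?_
    rw [Finset.sum_ite_eq, if_pos (mem_range.2 (hc' e he))]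
  rw [key E w cl m hc C t b1 b2 hw hC hb1 (hacc.trans h1) Ψ,
    key E' w' cl' m hc' C t b2 b2 hw' hC hb2 h1 Ψ]

/-- arcs of a permutation -/
def pL (σ : Perm (Fin 4)) : List ℕ :=
  [4 * ((0 : Fin 4) : ℕ) + (σ 0 : Fin 4), 4 * ((1 : Fin 4) : ℕ) + (σ 1 : Fin 4),
    4 * ((2 : Fin 4) : ℕ) + (σ 2 : Fin 4), 4 * ((3 : Fin 4) : ℕ) + (σ 3 : Fin 4)]

theorem phi_pL (A : Matrix (Fin 4) (Fin 4) ℂ) (σ : Perm (Fin 4)) :
    phi A (pL σ) = ∏ i, A i (σ i) := by
  rw [Fin.prod_univ_four]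
  simp only [phi, pL, List.map_cons, List.map_nil, List.prod_cons, List.prod_nil, mul_one,
    ent_pair]
  ring

theorem Phi_sum {K : ℕ} (act : Perm (Fin 4) → Fin K → Fin K)
    (hmul : ∀ g h k, act (g * h) k = act g (act h k)) (hone : ∀ k, act 1 k = k)
    (A : Matrix (Fin 4) (Fin 4) ℂ) (x : Fin K → ℂ) :
    ∑ σ, ∑ k, (Phi act A x (pL σ) k k - Phi act A x (pL σ) (act σ k) k)
      = 24 * GG act A x := by
  have hbij : ∀ g, Function.Bijective (act g) := by
    intro g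
    refine ⟨fun a b hab => ?_, fun b => ⟨act g⁻¹ b, ?_⟩⟩
    · have h1 : act g⁻¹ (act g a) = act g⁻¹ (act g b) := by rw [hab]
      rwa [← hmul, ← hmul, inv_mul_cancel, hone, hone] at h1
    · rw [← hmul, mul_inv_cancel, hone]
  have h1 : ∀ g : Perm (Fin 4), ∑ σ : Perm (Fin 4), phi (A.submatrix g g) (pL σ) *
      ∑ k, star (x (act g k)) * (x (act g k) - x (act g (act σ k))) = GG act A x := by
    intro g
    unfold GG
    symm
    rw [← Equiv.sum_comp (MulAut.conj g).toEquiv]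
    refine Finset.sum_congr rfl fun σ _ => ?_
    have e1 : (MulAut.conj g).toEquiv σ = g * σ * g⁻¹ := rfl
    rw [e1, phi_pL]
    congr 1
    · rw [← Equiv.prod_comp g (fun i => A i ((g * σ * g⁻¹) i))]
      refine Finset.prod_congr rfl fun i _ => ?_
      rw [Matrix.submatrix_apply]
      simp [Perm.mul_apply]
    · rw [← (hbij g).sum_comp (fun k => star (x k) * (x k - x (act (g * σ * g⁻¹) k)))]
      refine Finset.sum_congr rfl fun k _ => ?_
      have e2 : act (g * σ * g⁻¹) (act g k) = act g (act σ k) := by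
        rw [← hmul, ← hmul]
        congr 1
        group
      rw [e2]
  have h2 : ∑ σ, ∑ k, (Phi act A x (pL σ) k k - Phi act A x (pL σ) (act σ k) k)
      = ∑ g : Perm (Fin 4), ∑ σ : Perm (Fin 4), phi (A.submatrix g g) (pL σ) *
      ∑ k, star (x (act g k)) * (x (act g k) - x (act g (act σ k))) := by
    symm
    rw [Finset.sum_comm]
    refine Finset.sum_congr rfl fun σ _ => ?_
    simp only [Finset.mul_sum]
    rw [Finset.sum_comm]
    refine Finset.sum_congr rfl fun k _ => ?_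
    unfold Phi
    rw [← Finset.sum_sub_distrib]
    refine Finset.sum_congr rfl fun g _ => ?_
    ring
  rw [h2, Finset.sum_congr rfl fun g _ => h1 g, Finset.sum_const, Finset.card_univ,
    Fintype.card_perm, Fintype.card_fin, nsmul_eq_mul]
  norm_num [Nat.factorial]

/-- arcs of permutation number `s` -/
def pLs (s : ℕ) : List ℕ :=
  [kf HTab s 0, Nat.add 4 (kf HTab s 1), Nat.add 8 (kf HTab s 2), Nat.add 12 (kf HTab s 3)]

theorem pLs_lt (s : ℕ) : ∀ c ∈ pLs s, c < 16 := by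
  intro c hc
  have h0 := kf_lt HTab s 0
  have h1 := kf_lt HTab s 1
  have h2 := kf_lt HTab s 2
  have h3 := kf_lt HTab s 3
  simp only [pLs, List.mem_cons, List.not_mem_nil, or_false] at hc
  rcases hc with h | h | h | h <;> rw [h]
  · omega
  · show 4 + kf HTab s 1 < 16
    omega
  · show 8 + kf HTab s 2 < 16
    omega
  · show 12 + kf HTab s 3 < 16
    omega

theorem htab_inj : ∀ s < 24, ∀ s' < 24, (∀ i < 4, kf HTab s i = kf HTab s' i) → s = s' := by
  decide +kernel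

/-- a sum over all permutations in terms of the table -/
theorem sum_perm (f : Perm (Fin 4) → ℂ) (F : ℕ → ℂ)
    (h : ∀ s < 24, ∀ σ : Perm (Fin 4), (∀ i : Fin 4, ((σ i : Fin 4) : ℕ) = kf HTab s i) →
      f σ = F s) : ∑ σ, f σ = ∑ s ∈ range 24, F s := by
  classical
  have hex := exists_perm
  choose! p hp using hex
  have hinj : Set.InjOn p (range 24 : Finset ℕ) := by
    intro s hs s' hs' hss
    rw [Finset.mem_coe, mem_range] at hs hs'
    refine htab_inj s hs s' hs' fun i hi => ?_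
    have h1 := (hp s hs).1 ⟨i, hi⟩
    have h2 := (hp s' hs').1 ⟨i, hi⟩
    rw [hss] at h1
    exact h1.symm.trans h2
  have himg : (range 24).image p = Finset.univ := by
    apply Finset.eq_univ_of_card
    rw [Finset.card_image_of_injOn hinj, Finset.card_range, Fintype.card_perm, Fintype.card_fin]
    rfl
  rw [← himg, Finset.sum_image hinj]
  refine Finset.sum_congr rfl fun s hs => ?_
  rw [mem_range] at hs
  exact h s hs (p s) (hp s hs).1

/-- canonical class of the class `c` -/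
def rcl (K T R c : ℕ) : ℕ :=
  cls K (Nat.div c (Nat.mul K K)) (kf T (dg 5 R c) (Nat.mod (Nat.div c K) K))
    (kf T (dg 5 R c) (Nat.mod c K))

/-- check of the table of stabilisers -/
def chkR (K R : ℕ) : Bool :=
  allN (Nat.mul 27 (Nat.mul K K)) fun c => Nat.blt (dg 5 R c) 24 &&
    Nat.beq (pcode (dg 5 R c) (repL (Nat.div c (Nat.mul K K))))
      (pcode0 (repL (Nat.div c (Nat.mul K K))))

/-- check of the table of permutations -/
def chkP (S : ℕ) : Bool :=
  allN 24 fun s => Nat.blt (Nat.div (dg 10 S s) 32) 27 && Nat.blt (Nat.mod (dg 10 S s) 32) 24 &&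
    Nat.beq (pcode (Nat.mod (dg 10 S s) 32) (pLs s)) (pcode0 (repL (Nat.div (dg 10 S s) 32)))

/-- final check -/
def chkF (K T R S l : ℕ) (Ct : ℕ → ℤ) : Bool :=
  decide (sumZ (Nat.mul 27 (Nat.mul K K)) (fun c => Int.mul (Ct c) (Blk.pw (rcl K T R c)))
    = (l : ℤ) * sumZ 24 fun s => sumZ K fun k =>
        Blk.pw (rcl K T R (cls K (Nat.div (dg 10 S s) 32) (kf T (Nat.mod (dg 10 S s) 32) k)
            (kf T (Nat.mod (dg 10 S s) 32) k))) -
        Blk.pw (rcl K T R (cls K (Nat.div (dg 10 S s) 32)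
            (kf T (Nat.mod (dg 10 S s) 32) (kf T s k)) (kf T (Nat.mod (dg 10 S s) 32) k))))

theorem blt_lt {a b : ℕ} (h : Nat.blt a b = true) : a < b := Nat.le_of_ble_eq_true h

theorem Compat.kf_lt {K : ℕ} {act : Perm (Fin 4) → Fin K → Fin K} {T : ℕ}
    (hact : Compat act T) (h : ℕ) (hh : h < 24) (k : ℕ) (hk : k < K) : kf T h k < K := by
  obtain ⟨σ, _, h2⟩ := hact.2 h hh
  have h3 := h2 ⟨k, hk⟩
  show kf T h ((⟨k, hk⟩ : Fin K) : ℕ) < K
  rw [← h3]
  exact (act σ ⟨k, hk⟩).isLt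

theorem cls_lt {K o k l : ℕ} (ho : o < 27) (hk : k < K) (hl : l < K) :
    cls K o k l < 27 * (K * K) := by
  show (o * K + k) * K + l < 27 * (K * K)
  calc (o * K + k) * K + l < (o * K + k) * K + K := by omega
    _ = (o * K + k + 1) * K := by ring
    _ ≤ (26 * K + K) * K := by
        apply Nat.mul_le_mul_right
        have : o * K ≤ 26 * K := Nat.mul_le_mul_right K (by omega)
        omega
    _ = 27 * (K * K) := by ring

theorem fin_ofNat_val {K : ℕ} [NeZero K] (k : ℕ) (hk : k < K) :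
    ((Fin.ofNat K k : Fin K) : ℕ) = k := Nat.mod_eq_of_lt hk

theorem rcl_spec {K : ℕ} [NeZero K] {act : Perm (Fin 4) → Fin K → Fin K} {T R : ℕ}
    (hact : Compat act T) (hR : chkR K R = true) (A : Matrix (Fin 4) (Fin 4) ℂ)
    (hd : ∀ i, A i i = 1) (x : Fin K → ℂ) (c : ℕ) (hc : c < 27 * (K * K)) :
    rcl K T R c < 27 * (K * K) ∧ Psi act A x c = Psi act A x (rcl K T R c) := by
  unfold chkR at hR
  rw [allN_iff] at hR
  have h1 := hR c hc
  rw [Bool.and_eq_true] at h1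
  have h2 := blt_lt h1.1
  have h3 : pcode (dg 5 R c) (repL (c / (K * K))) = pcode0 (repL (c / (K * K))) :=
    Nat.eq_of_beq_eq_true h1.2
  have hK : 0 < K := Nat.pos_of_ne_zero (NeZero.ne K)
  have k1 : c / K % K < K := Nat.mod_lt _ hK
  have k2 : c % K < K := Nat.mod_lt _ hK
  have m1 := hact.kf_lt _ h2 _ k1
  have m2 := hact.kf_lt _ h2 _ k2
  have ho : c / (K * K) < 27 := by
    rw [Nat.div_lt_iff_lt_mul (Nat.mul_pos hK hK)]
    exact hc
  have e1 : rcl K T R c = cls K (c / (K * K)) (kf T (dg 5 R c) (c / K % K))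
    (kf T (dg 5 R c) (c % K)) := rfl
  obtain ⟨c1, c2, c3⟩ := cls_div (o := c / (K * K)) m1 m2
  refine ⟨by rw [e1]; exact cls_lt ho m1 m2, ?_⟩
  rw [e1]
  unfold Psi
  rw [c1, c2, c3]
  refine Phi_move hact A hd x _ _ (repL_lt _) (repL_lt _) _ h2 h3 _ _ _ _ ?_ ?_
  · rw [fin_ofNat_val _ m1, fin_ofNat_val _ k1]
  · rw [fin_ofNat_val _ m2, fin_ofNat_val _ k2]

/-- final step: the sum of the blocks is a positive multiple of the form -/
theorem total_nonneg {K : ℕ} [NeZero K] {act : Perm (Fin 4) → Fin K → Fin K} {T R S l : ℕ}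
    (hact : Compat act T) (hone : ∀ k, act 1 k = k) (Ct : ℕ → ℤ) (hl0 : 0 < l)
    (hl : l ≤ 2 ^ 20) (hK : K ≤ 4) (hCt : ∀ c, |Ct c| ≤ 2 ^ 36)
    (hR : chkR K R = true) (hP : chkP S = true) (hF : chkF K T R S l Ct = true)
    (A : Matrix (Fin 4) (Fin 4) ℂ) (hd : ∀ i, A i i = 1) (x : Fin K → ℂ)
    (hpos : 0 ≤ (∑ c ∈ range (27 * (K * K)), (Ct c : ℂ) * Psi act A x c).re) :
    0 ≤ (GG act A x).re := by
  have hP' : ∀ s < 24, dg 10 S s / 32 < 27 ∧ dg 10 S s % 32 < 24 ∧
      pcode (dg 10 S s % 32) (pLs s) = pcode0 (repL (dg 10 S s / 32)) := by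
    intro s hs
    unfold chkP at hP
    rw [allN_iff] at hP
    have h1 := hP s hs
    rw [Bool.and_eq_true, Bool.and_eq_true] at h1
    exact ⟨blt_lt h1.1.1, blt_lt h1.1.2, Nat.eq_of_beq_eq_true h1.2⟩
  have hF' := of_decide_eq_true hF
  rw [sumZ_eq, sumZ_eq] at hF'
  have hKK : K * K ≤ 16 := Nat.mul_le_mul hK hK
  -- the permutation side
  let E' : Finset (ℕ × ℕ × ℕ) := range 24 ×ˢ range K ×ˢ range 2
  let w' : ℕ × ℕ × ℕ → ℤ := fun e => (l : ℤ) * (if e.2.2 = 0 then 1 else -1)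
  let cl' : ℕ × ℕ × ℕ → ℕ := fun e =>
    rcl K T R (cls K (dg 10 S e.1 / 32)
      (kf T (dg 10 S e.1 % 32) (if e.2.2 = 0 then e.2.1 else kf T e.1 e.2.1))
      (kf T (dg 10 S e.1 % 32) e.2.1))
  have hmem : ∀ e ∈ E', e.1 < 24 ∧ e.2.1 < K := by
    intro e he
    simp only [E', Finset.mem_product, mem_range] at he
    exact ⟨he.1, he.2.1⟩
  have hin : ∀ s < 24, ∀ k < K, ∀ k' < K, cls K (dg 10 S s / 32)
      (kf T (dg 10 S s % 32) k') (kf T (dg 10 S s % 32) k) < 27 * (K * K) := by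
    intro s hs k hk k' hk'
    obtain ⟨h1, h2, h3⟩ := hP' s hs
    exact cls_lt h1 (hact.kf_lt _ h2 _ hk') (hact.kf_lt _ h2 _ hk)
  have hcl : ∀ c ∈ range (27 * (K * K)), rcl K T R c < 27 * (K * K) := fun c hc =>
    (rcl_spec hact hR A hd x c (mem_range.1 hc)).1
  have hcl' : ∀ e ∈ E', cl' e < 27 * (K * K) := by
    intro e he
    obtain ⟨h1, h2⟩ := hmem e he
    refine (rcl_spec hact hR A hd x _ (hin _ h1 _ h2 _ ?_)).1
    split_ifs
    · exact h2
    · exact hact.kf_lt _ h1 _ h2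
  have hw : ∑ c ∈ range (27 * (K * K)), |Ct c| ≤ 2 ^ 45 := by
    have h1 := Finset.sum_le_card_nsmul (range (27 * (K * K))) (fun c => |Ct c|) (2 ^ 36)
      (fun c _ => hCt c)
    refine le_trans h1 ?_
    rw [Finset.card_range, nsmul_eq_mul]
    have h2 : ((27 * (K * K) : ℕ) : ℤ) ≤ 2 ^ 9 := by
      have : 27 * (K * K) ≤ 2 ^ 9 := by omega
      exact_mod_cast this
    calc ((27 * (K * K) : ℕ) : ℤ) * 2 ^ 36 ≤ 2 ^ 9 * 2 ^ 36 :=
          mul_le_mul_of_nonneg_right h2 (by norm_num)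
      _ = 2 ^ 45 := by norm_num
  have hw' : ∑ e ∈ E', |w' e| ≤ 2 ^ 28 := by
    have h1 : ∀ e ∈ E', |w' e| ≤ 2 ^ 20 := by
      intro e _
      have hl' : (l : ℤ) ≤ 2 ^ 20 := by exact_mod_cast hl
      show |(l : ℤ) * (if e.2.2 = 0 then 1 else -1)| ≤ 2 ^ 20
      rw [abs_mul]
      have h2 : |(if e.2.2 = 0 then (1 : ℤ) else -1)| = 1 := by split_ifs <;> simp
      rw [h2, mul_one, abs_of_nonneg (by positivity)]
      exact hl'
    have h2 := Finset.sum_le_card_nsmul E' (fun e => |w' e|) (2 ^ 20) h1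
    refine le_trans h2 ?_
    have h3 : E'.card ≤ 2 ^ 8 := by
      simp only [E', Finset.card_product, Finset.card_range]
      omega
    rw [nsmul_eq_mul]
    calc ((E'.card : ℕ) : ℤ) * 2 ^ 20 ≤ ((2 ^ 8 : ℕ) : ℤ) * 2 ^ 20 := by
          apply mul_le_mul_of_nonneg_right _ (by norm_num)
          exact_mod_cast h3
      _ = 2 ^ 28 := by norm_num
  have hacc : ∑ c ∈ range (27 * (K * K)), Ct c * ((2 : ℤ) ^ 48) ^ (rcl K T R c)
      = ∑ e ∈ E', w' e * ((2 : ℤ) ^ 48) ^ (cl' e) := by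
    have h1 : ∑ c ∈ range (27 * (K * K)), Ct c * ((2 : ℤ) ^ 48) ^ (rcl K T R c)
        = ∑ i ∈ range (Nat.mul 27 (Nat.mul K K)), Int.mul (Ct i) (Blk.pw (rcl K T R i)) := by
      refine Finset.sum_congr rfl fun c _ => ?_
      show _ = Ct c * Blk.pw (rcl K T R c)
      rw [pw_eq]
    rw [h1, hF', Finset.mul_sum]
    simp only [E', Finset.sum_product]
    refine Finset.sum_congr rfl fun s _ => ?_
    rw [sumZ_eq, Finset.mul_sum]
    refine Finset.sum_congr rfl fun k _ => ?_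
    rw [Finset.sum_range_succ, Finset.sum_range_one]
    simp only [w', cl', pw_eq, if_true, one_ne_zero, if_false]
    have e1 : Nat.div (dg 10 S s) 32 = dg 10 S s / 32 := rfl
    have e2 : Nat.mod (dg 10 S s) 32 = dg 10 S s % 32 := rfl
    rw [e1, e2]
    ring
  have hk := key2 (range (27 * (K * K))) E' Ct w' (rcl K T R) cl' (27 * (K * K)) hcl hcl'
    (2 ^ 48) (2 ^ 45) (2 ^ 28) hw hw' (by norm_num) (by norm_num) hacc (Psi act A x)
  have h1 : ∑ c ∈ range (27 * (K * K)), (Ct c : ℂ) * Psi act A x c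
      = ∑ c ∈ range (27 * (K * K)), (Ct c : ℂ) * Psi act A x (rcl K T R c) := by
    refine Finset.sum_congr rfl fun c hc => ?_
    rw [← (rcl_spec hact hR A hd x c (mem_range.1 hc)).2]
  rw [h1, hk] at hpos
  -- evaluate the permutation side
  have h2 : ∀ s < 24, ∀ k < K, ∀ k' < K,
      Psi act A x (rcl K T R (cls K (dg 10 S s / 32) (kf T (dg 10 S s % 32) k')
        (kf T (dg 10 S s % 32) k))) = Phi act A x (pLs s) (Fin.ofNat K k') (Fin.ofNat K k) := by
    intro s hs k hk k' hk'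
    obtain ⟨q1, q2, q3⟩ := hP' s hs
    rw [← (rcl_spec hact hR A hd x _ (hin s hs k hk k' hk')).2]
    have m1 := hact.kf_lt _ q2 _ hk'
    have m2 := hact.kf_lt _ q2 _ hk
    obtain ⟨c1, c2, c3⟩ := cls_div (o := dg 10 S s / 32) m1 m2
    unfold Psi
    rw [c1, c2, c3]
    symm
    refine Phi_move hact A hd x _ _ (pLs_lt _) (repL_lt _) _ q2 q3 _ _ _ _ ?_ ?_
    · rw [fin_ofNat_val _ m1, fin_ofNat_val _ hk']
    · rw [fin_ofNat_val _ m2, fin_ofNat_val _ hk]
  have h3 : ∑ e ∈ E', (w' e : ℂ) * Psi act A x (cl' e) = (l : ℂ) * (24 * GG act A x) := by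
    rw [← Phi_sum act hact.1 hone A x]
    have h4 : ∑ σ, ∑ k, (Phi act A x (pL σ) k k - Phi act A x (pL σ) (act σ k) k)
        = ∑ s ∈ range 24, ∑ k ∈ range K, (Phi act A x (pLs s) (Fin.ofNat K k) (Fin.ofNat K k)
          - Phi act A x (pLs s) (Fin.ofNat K (kf T s k)) (Fin.ofNat K k)) := by
      apply sum_perm
      intro s hs σ hσ
      have h5 : pL σ = pLs s := by
        have g0 := hσ 0
        have g1 := hσ 1
        have g2 := hσ 2
        have g3 := hσ 3
        unfold pL pLs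
        rw [g0, g1, g2, g3]
        simp
      have h6 : ∀ k : Fin K, act σ k = Fin.ofNat K (kf T s k) := by
        intro k
        obtain ⟨τ, t1, t2⟩ := hact.2 s hs
        have : σ = τ := by
          ext i
          rw [hσ i, t1 i]
        rw [this]
        apply Fin.ext
        rw [t2 k, fin_ofNat_val _ (hact.kf_lt s hs k k.isLt)]
      rw [← Fin.sum_univ_eq_sum_range (fun k => Phi act A x (pLs s) (Fin.ofNat K k) (Fin.ofNat K k)
          - Phi act A x (pLs s) (Fin.ofNat K (kf T s k)) (Fin.ofNat K k)) K]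
      refine Finset.sum_congr rfl fun k _ => ?_
      have h7 : (Fin.ofNat K (k : ℕ) : Fin K) = k := Fin.ext (Nat.mod_eq_of_lt k.isLt)
      rw [h5, h6, h7]
    rw [h4]
    simp only [E', Finset.sum_product]
    rw [Finset.mul_sum]
    refine Finset.sum_congr rfl fun s hs => ?_
    rw [Finset.mul_sum]
    refine Finset.sum_congr rfl fun k hk' => ?_
    rw [mem_range] at hs hk'
    rw [Finset.sum_range_succ, Finset.sum_range_one]
    simp only [w', cl', if_true, one_ne_zero, if_false]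
    rw [h2 s hs k hk' k hk', h2 s hs k hk' (kf T s k) (hact.kf_lt s hs k hk')]
    push_cast
    ring
  rw [h3] at hpos
  have h8 : ((l : ℂ) * (24 * GG act A x)).re = (l : ℝ) * (24 * (GG act A x).re) := by
    have : ((l : ℂ) * (24 * GG act A x)) = (((l : ℝ) : ℂ)) * (((24 : ℝ) : ℂ) * GG act A x) := by
      push_cast; rfl
    rw [this, Complex.re_ofReal_mul, Complex.re_ofReal_mul]
  rw [h8] at hpos
  have hl' : (0 : ℝ) < l := by exact_mod_cast hl0
  have h9 := nonneg_of_mul_nonneg_right hpos hl'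
  linarith

end Pot4
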