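import Mathlib
import Pool.Agent.Lib.Pot4.Tot
import Pool.Agent.Lib.Pot4.D22_0
import Pool.Agent.Lib.Pot4.D22_1

/-! # The certificate for the form with action `pr` -/

set_option autoImplicit false
set_option maxRecDepth 100000

namespace Pot4

open Finset
open scoped ComplexOrder

/-- stabilisers -/
def R22 : ℕ := 0xc7310211800194641082000421000010018c6210800000000000000008420000200000000000000210800008000000000000000000000000252948000000210800008000100421000008420000200318c4210000021080000800328c8210400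

/-- permutations -/
def S22 : ℕ := 0x28cc308c4510cc5308a21102231042104c130040280200b4531482c0c000

/-- sum of the blocks -/
def Ct22 (c : ℕ) : ℤ := Int.add (Blk.Cc d22_0 c) (Blk.Cc d22_1 c)

theorem Ct22_eq (c : ℕ) : Ct22 c = (Blk.Cc d22_0 c + Blk.Cc d22_1 c) := rfl

theorem Ct22_le (c : ℕ) : |Ct22 c| ≤ 2 ^ 36 := by
  have h : ∀ d : Blk, |Blk.Cc d c| ≤ 2 ^ 31 := fun d => abs_sdg_le 32 _ _ (by norm_num)
  have h0 := abs_le.1 (h d22_0)
  have h1 := abs_le.1 (h d22_1)
  rw [Ct22_eq, abs_le]
  norm_num at *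
  constructor <;> linarith [h0.1, h0.2, h1.1, h1.2]

theorem R22_chk : chkR 3 R22 = true := by decide +kernel

theorem S22_chk : chkP S22 = true := by decide +kernel

theorem F22_chk : chkF 3 KTab3 R22 S22 6144 Ct22 = true := by decide +kernel

theorem cert22 (A : Matrix (Fin 4) (Fin 4) ℂ) (hA : A.PosSemidef) (hd : ∀ i, A i i = 1)
    (x : Fin 3 → ℂ) : 0 ≤ (GG pr A x).re := by
  refine total_nonneg (T := KTab3) (R := R22) (S := S22) (l := 6144) compat_pr (by decide +kernel) Ct22
    (by norm_num) (by norm_num) (by norm_num) Ct22_le R22_chk S22_chk F22_chk A hd x ?_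
  have h : ∑ c ∈ range (27 * (3 * 3)), (Ct22 c : ℂ) * Psi pr A x c
      = ∑ c ∈ range (27 * (3 * 3)), (Blk.Cc d22_0 c : ℂ) * Psi pr A x c + ∑ c ∈ range (27 * (3 * 3)), (Blk.Cc d22_1 c : ℂ) * Psi pr A x c := by
    simp only [← Finset.sum_add_distrib]
    refine Finset.sum_congr rfl fun c _ => ?_
    rw [Ct22_eq]
    push_cast
    ring
  rw [h]
  simp only [Complex.add_re]
  have p0 := d22_0_nonneg A hA hd x
  have p1 := d22_1_nonneg A hA hd x
  linarith

end Pot4
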