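import Mathlib
import Pool.Agent.Lib.Pot4.Tot
import Pool.Agent.Lib.Pot4.D31_0
import Pool.Agent.Lib.Pot4.D31_1
import Pool.Agent.Lib.Pot4.D31_2
import Pool.Agent.Lib.Pot4.D31_3
import Pool.Agent.Lib.Pot4.D31_4
import Pool.Agent.Lib.Pot4.D31_5
import Pool.Agent.Lib.Pot4.D31_6
import Pool.Agent.Lib.Pot4.D31_7
import Pool.Agent.Lib.Pot4.D31_8
import Pool.Agent.Lib.Pot4.D31_9

/-! # The certificate for the form with action `nat4` -/

set_option autoImplicit false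
set_option maxRecDepth 100000

namespace Pot4

open Finset
open scoped ComplexOrder

/-- stabilisers -/
def R31 : ℕ := 0x39ce70000039ce70000039ce70000039ce700000020c0421c8330c600800194632084208000188000842100000080000800002180421086318c0000000000000000000000000084e1000c0398c60800000000000000000000000084e1000c0398c60800000000000000000000000000000000000000000004a5298421094a52000008c6f1842d0398c60800000800108420000000800084e1000c0398c60800002180421086318c00000084e1000c0398c6080004c5e9821c86b0c618800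

/-- permutations -/
def S31 : ℕ := 0x28cc308c4510cc5308a21102231042104c130040280200b4531482c0c000

/-- sum of the blocks -/
def Ct31 (c : ℕ) : ℤ := Int.add (Int.add (Int.add (Int.add (Int.add (Int.add (Int.add (Int.add (Int.add (Blk.Cc d31_0 c) (Blk.Cc d31_1 c)) (Blk.Cc d31_2 c)) (Blk.Cc d31_3 c)) (Blk.Cc d31_4 c)) (Blk.Cc d31_5 c)) (Blk.Cc d31_6 c)) (Blk.Cc d31_7 c)) (Blk.Cc d31_8 c)) (Blk.Cc d31_9 c)

theorem Ct31_eq (c : ℕ) : Ct31 c = (((((((((Blk.Cc d31_0 c + Blk.Cc d31_1 c) + Blk.Cc d31_2 c) + Blk.Cc d31_3 c) + Blk.Cc d31_4 c) + Blk.Cc d31_5 c) + Blk.Cc d31_6 c) + Blk.Cc d31_7 c) + Blk.Cc d31_8 c) + Blk.Cc d31_9 c) := rfl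

theorem Ct31_le (c : ℕ) : |Ct31 c| ≤ 2 ^ 36 := by
  have h : ∀ d : Blk, |Blk.Cc d c| ≤ 2 ^ 31 := fun d => abs_sdg_le 32 _ _ (by norm_num)
  have h0 := abs_le.1 (h d31_0)
  have h1 := abs_le.1 (h d31_1)
  have h2 := abs_le.1 (h d31_2)
  have h3 := abs_le.1 (h d31_3)
  have h4 := abs_le.1 (h d31_4)
  have h5 := abs_le.1 (h d31_5)
  have h6 := abs_le.1 (h d31_6)
  have h7 := abs_le.1 (h d31_7)
  have h8 := abs_le.1 (h d31_8)
  have h9 := abs_le.1 (h d31_9)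
  rw [Ct31_eq, abs_le]
  norm_num at *
  constructor <;> linarith [h0.1, h0.2, h1.1, h1.2, h2.1, h2.2, h3.1, h3.2, h4.1, h4.2, h5.1, h5.2, h6.1, h6.2, h7.1, h7.2, h8.1, h8.2, h9.1, h9.2]

theorem R31_chk : chkR 4 R31 = true := by decide +kernel

theorem S31_chk : chkP S31 = true := by decide +kernel

theorem F31_chk : chkF 4 HTab R31 S31 147456 Ct31 = true := by decide +kernel

theorem cert31 (A : Matrix (Fin 4) (Fin 4) ℂ) (hA : A.PosSemidef) (hd : ∀ i, A i i = 1)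
    (x : Fin 4 → ℂ) : 0 ≤ (GG nat4 A x).re := by
  refine total_nonneg (T := HTab) (R := R31) (S := S31) (l := 147456) compat_nat (by decide +kernel) Ct31
    (by norm_num) (by norm_num) (by norm_num) Ct31_le R31_chk S31_chk F31_chk A hd x ?_
  have h : ∑ c ∈ range (27 * (4 * 4)), (Ct31 c : ℂ) * Psi nat4 A x c
      = ∑ c ∈ range (27 * (4 * 4)), (Blk.Cc d31_0 c : ℂ) * Psi nat4 A x c + ∑ c ∈ range (27 * (4 * 4)), (Blk.Cc d31_1 c : ℂ) * Psi nat4 A x c + ∑ c ∈ range (27 * (4 * 4)), (Blk.Cc d31_2 c : ℂ) * Psi nat4 A x c + ∑ c ∈ range (27 * (4 * 4)), (Blk.Cc d31_3 c : ℂ) * Psi nat4 A x c + ∑ c ∈ range (27 * (4 * 4)), (Blk.Cc d31_4 c : ℂ) * Psi nat4 A x c + ∑ c ∈ range (27 * (4 * 4)), (Blk.Cc d31_5 c : ℂ) * Psi nat4 A x c + ∑ c ∈ range (27 * (4 * 4)), (Blk.Cc d31_6 c : ℂ) * Psi nat4 A x c + ∑ c ∈ range (27 * (4 * 4)), (Blk.Cc d31_7 c : ℂ) * Psi nat4 A x c + ∑ c ∈ range (27 * (4 * 4)), (Blk.Cc d31_8 c : ℂ) * Psi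 nat4 A x c + ∑ c ∈ range (27 * (4 * 4)), (Blk.Cc d31_9 c : ℂ) * Psi nat4 A x c := by
    simp only [← Finset.sum_add_distrib]
    refine Finset.sum_congr rfl fun c _ => ?_
    rw [Ct31_eq]
    push_cast
    ring
  rw [h]
  simp only [Complex.add_re]
  have p0 := d31_0_nonneg A hA hd x
  have p1 := d31_1_nonneg A hA hd x
  have p2 := d31_2_nonneg A hA hd x
  have p3 := d31_3_nonneg A hA hd x
  have p4 := d31_4_nonneg A hA hd x
  have p5 := d31_5_nonneg A hA hd x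
  have p6 := d31_6_nonneg A hA hd x
  have p7 := d31_7_nonneg A hA hd x
  have p8 := d31_8_nonneg A hA hd x
  have p9 := d31_9_nonneg A hA hd x
  linarith

end Pot4
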