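import Mathlib
import Pool.Agent.Lib.SPM.Main
import Pool.Agent.Lib.Pot4.Defs

/-!
# MP_502342_al, order 4: Fourier assembly on the symmetric group

The bounds for the blocks (3,1) and (2,2) together with the landed bound for (2,1,1)
(`SPM.T_all`) give the bound for the whole Schur power matrix of order 4.
-/

set_option autoImplicit false

namespace Pot4

namespace FourAux

open Matrix Finset
open scoped ComplexOrder

abbrev P4 := Equiv.Perm (Fin 4)

def cnt {K : ℕ} (a : Fin K → Fin K) : ℤ := ∑ l, if a l = l then 1 else 0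

theorem pr_one : ∀ k : Fin 3, pr 1 k = k := by decide +kernel

theorem nat4_one (k : Fin 4) : nat4 1 k = k := rfl

theorem class_id : ∀ ρ : P4, (24 : ℤ) * (if ρ = 1 then 1 else 0) =
    -4 + 3 * cnt (nat4 ρ) + 2 * cnt (pr ρ) +
      (Equiv.Perm.sign ρ : ℤ) * (3 * cnt (nat4 ρ) - 2) := by decide +kernel

/-- The coset sums of `f`. -/
noncomputable def XX {K : ℕ} (act : P4 → Fin K → Fin K) (f : P4 → ℂ) (l k : Fin K) : ℂ :=
  ∑ σ : P4, if act σ l = k then f σ else 0

theorem corr {K : ℕ} (act : P4 → Fin K → Fin K)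
    (hmul : ∀ (s t : P4) (k : Fin K), act (s * t) k = act s (act t k))
    (hone : ∀ k : Fin K, act 1 k = k) (f : P4 → ℂ) (κ : P4) :
    ∑ l, ∑ k, star (XX act f l k) * XX act f l (act κ k) =
      ∑ σ : P4, ∑ τ : P4, star (f σ) * f τ * (cnt (act (τ⁻¹ * κ * σ)) : ℂ) := by
  have h1 : ∀ l : Fin K, ∑ k, star (XX act f l k) * XX act f l (act κ k) =
      ∑ σ : P4, ∑ τ : P4, star (f σ) * f τ * (if act (τ⁻¹ * κ * σ) l = l then 1 else 0) := by
    intro l
    have hiff : ∀ σ τ : P4, (act τ l = act κ (act σ l)) ↔ act (τ⁻¹ * κ * σ) l = l := by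
      intro σ τ
      rw [mul_assoc, hmul, hmul]
      constructor
      · intro h
        rw [← h, ← hmul, inv_mul_cancel, hone]
      · intro h
        have h2 := congrArg (act τ) h
        rw [← hmul, mul_inv_cancel, hone] at h2
        exact h2.symm
    have h2 : ∀ k : Fin K, star (XX act f l k) * XX act f l (act κ k) =
        ∑ σ : P4, ∑ τ : P4, (if act σ l = k then star (f σ) else 0) *
          (if act τ l = act κ k then f τ else 0) := by
      intro k
      unfold XX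
      rw [star_sum, Finset.sum_mul_sum]
      refine Finset.sum_congr rfl fun σ _ => Finset.sum_congr rfl fun τ _ => ?_
      by_cases hc : act σ l = k <;> simp [hc]
    simp only [h2]
    rw [Finset.sum_comm]
    refine Finset.sum_congr rfl fun σ _ => ?_
    rw [Finset.sum_comm]
    refine Finset.sum_congr rfl fun τ _ => ?_
    rw [Finset.sum_eq_single (act σ l)]
    · by_cases hc : act (τ⁻¹ * κ * σ) l = l
      · rw [if_pos rfl, if_pos ((hiff σ τ).2 hc), if_pos hc, mul_one]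
      · rw [if_pos rfl, if_neg (fun h => hc ((hiff σ τ).1 h)), if_neg hc, mul_zero, mul_zero]
    · intro k _ hk
      rw [if_neg (fun h => hk h.symm), zero_mul]
    · intro h
      exact absurd (Finset.mem_univ _) h
  simp only [h1]
  rw [Finset.sum_comm]
  refine Finset.sum_congr rfl fun σ _ => ?_
  rw [Finset.sum_comm]
  refine Finset.sum_congr rfl fun τ _ => ?_
  rw [← Finset.mul_sum]
  congr 1
  unfold cnt
  push_cast
  rfl

theorem corr_one {K : ℕ} (act : P4 → Fin K → Fin K)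
    (hmul : ∀ (s t : P4) (k : Fin K), act (s * t) k = act s (act t k))
    (hone : ∀ k : Fin K, act 1 k = k) (f : P4 → ℂ) :
    ∑ l, ∑ k, star (XX act f l k) * XX act f l k =
      ∑ σ : P4, ∑ τ : P4, star (f σ) * f τ * (cnt (act (τ⁻¹ * σ)) : ℂ) := by
  have h := corr act hmul hone f 1
  simp only [hone, mul_one] at h
  exact h

theorem GG_sum {K : ℕ} (act : P4 → Fin K → Fin K)
    (hmul : ∀ (s t : P4) (k : Fin K), act (s * t) k = act s (act t k))
    (hone : ∀ k : Fin K, act 1 k = k) (A : Matrix (Fin 4) (Fin 4) ℂ) (f : P4 → ℂ) :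
    ∑ l, GG act A (XX act f l) = ∑ κ : P4, (∏ i, A i (κ i)) *
      ∑ σ : P4, ∑ τ : P4, star (f σ) * f τ *
        ((cnt (act (τ⁻¹ * σ)) : ℂ) - (cnt (act (τ⁻¹ * κ * σ)) : ℂ)) := by
  unfold GG
  rw [Finset.sum_comm]
  refine Finset.sum_congr rfl fun κ _ => ?_
  rw [← Finset.mul_sum]
  congr 1
  have h1 : ∀ l : Fin K, ∑ k, star (XX act f l k) * (XX act f l k - XX act f l (act κ k)) =
      ∑ k, star (XX act f l k) * XX act f l k -
      ∑ k, star (XX act f l k) * XX act f l (act κ k) := by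
    intro l
    rw [← Finset.sum_sub_distrib]
    exact Finset.sum_congr rfl fun k _ => by ring
  simp only [h1]
  rw [Finset.sum_sub_distrib, corr act hmul hone, corr_one act hmul hone,
    ← Finset.sum_sub_distrib]
  refine Finset.sum_congr rfl fun σ _ => ?_
  rw [← Finset.sum_sub_distrib]
  exact Finset.sum_congr rfl fun τ _ => by ring

/-- The form of the sign-twisted block. -/
noncomputable def HH (A : Matrix (Fin 4) (Fin 4) ℂ) (x : Fin 4 → ℂ) : ℂ :=
  ∑ σ : P4, (∏ i, A i (σ i)) *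
    ∑ k, star (x k) * (x k - ((Equiv.Perm.sign σ : ℤ) : ℂ) * x (σ k))

theorem per_prod (A : Matrix (Fin 4) (Fin 4) ℂ) :
    A.permanent = ∑ σ : P4, ∏ i, A i (σ i) := by
  rw [← Matrix.permanent_transpose]
  rfl

theorem det_prod (A : Matrix (Fin 4) (Fin 4) ℂ) :
    A.det = ∑ σ : P4, ((Equiv.Perm.sign σ : ℤ) : ℂ) * ∏ i, A i (σ i) := by
  rw [← Matrix.det_transpose, Matrix.det_apply']
  rfl

theorem HH_eq (A : Matrix (Fin 4) (Fin 4) ℂ) (x : Fin 4 → ℂ) :
    HH A x = A.permanent * ∑ k, star (x k) * x k - SPM.qfC A x := by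
  have h1 : SPM.qfC A x = ∑ κ : P4, (∏ i, A i (κ i)) *
      ∑ k, star (x k) * (((Equiv.Perm.sign κ : ℤ) : ℂ) * x (κ k)) := by
    unfold SPM.qfC
    have h2 : ∀ i : Fin 4, ∑ j, star (x i) * (A i j * A.adjugate j i) * x j =
        ∑ κ : P4, (∏ i, A i (κ i)) * (star (x i) * (((Equiv.Perm.sign κ : ℤ) : ℂ) * x (κ i))) := by
      intro i
      have h3 := SPM.RepAAux.one_term A x 1 i
      simp only [Equiv.Perm.coe_one, id_eq, Equiv.Perm.sign_one, Units.val_one, Int.cast_one,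
        one_mul] at h3
      calc ∑ j, star (x i) * (A i j * A.adjugate j i) * x j =
          star (x i) * ∑ l, A i l * A.adjugate l i * x l := by
            rw [Finset.mul_sum]
            exact Finset.sum_congr rfl fun j _ => by ring
        _ = _ := by
            rw [← h3, Finset.mul_sum]
            exact Finset.sum_congr rfl fun j _ => by ring
    simp only [h2]
    rw [Finset.sum_comm]
    exact Finset.sum_congr rfl fun κ _ => by rw [← Finset.mul_sum]
  rw [h1, per_prod, Finset.sum_mul, ← Finset.sum_sub_distrib]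
  unfold HH
  refine Finset.sum_congr rfl fun κ _ => ?_
  rw [← mul_sub, ← Finset.sum_sub_distrib]
  congr 1
  exact Finset.sum_congr rfl fun k _ => by ring

/-- The sign twist of a function. -/
noncomputable def tw (f : P4 → ℂ) (σ : P4) : ℂ := ((Equiv.Perm.sign σ : ℤ) : ℂ) * f σ

theorem HH_sum (A : Matrix (Fin 4) (Fin 4) ℂ) (f : P4 → ℂ) :
    ∑ l, HH A (XX nat4 f l) = ∑ κ : P4, (∏ i, A i (κ i)) *
      ∑ σ : P4, ∑ τ : P4, star (f σ) * f τ *
        ((cnt (nat4 (τ⁻¹ * σ)) : ℂ) -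
          ((Equiv.Perm.sign κ : ℤ) : ℂ) * (cnt (nat4 (τ⁻¹ * κ * σ)) : ℂ)) := by
  unfold HH
  rw [Finset.sum_comm]
  refine Finset.sum_congr rfl fun κ _ => ?_
  rw [← Finset.mul_sum]
  congr 1
  have h1 : ∀ l : Fin 4, ∑ k, star (XX nat4 f l k) *
      (XX nat4 f l k - ((Equiv.Perm.sign κ : ℤ) : ℂ) * XX nat4 f l (κ k)) =
      ∑ k, star (XX nat4 f l k) * XX nat4 f l k -
      ((Equiv.Perm.sign κ : ℤ) : ℂ) * ∑ k, star (XX nat4 f l k) * XX nat4 f l (nat4 κ k) := by
    intro l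
    rw [Finset.mul_sum, ← Finset.sum_sub_distrib]
    exact Finset.sum_congr rfl fun k _ => by unfold nat4; ring
  simp only [h1]
  rw [Finset.sum_sub_distrib, ← Finset.mul_sum, corr nat4 nat4_mul nat4_one,
    corr_one nat4 nat4_mul nat4_one, Finset.mul_sum, ← Finset.sum_sub_distrib]
  refine Finset.sum_congr rfl fun σ _ => ?_
  rw [Finset.mul_sum, ← Finset.sum_sub_distrib]
  exact Finset.sum_congr rfl fun τ _ => by ring

theorem quad (A : Matrix (Fin 4) (Fin 4) ℂ) (f : P4 → ℂ) :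
    A.permanent * ∑ σ : P4, star (f σ) * f σ -
      ∑ σ : P4, ∑ τ : P4, star (f σ) * (∏ i, A (σ i) (τ i)) * f τ =
    ∑ κ : P4, (∏ i, A i (κ i)) * ∑ σ : P4, ∑ τ : P4, star (f σ) * f τ *
      ((if τ⁻¹ * σ = 1 then 1 else 0) - (if τ⁻¹ * κ * σ = 1 then 1 else 0)) := by
  have h1 : ∀ σ : P4, ∑ τ : P4, star (f σ) * (∏ i, A (σ i) (τ i)) * f τ =
      ∑ κ : P4, (∏ i, A i (κ i)) * (star (f σ) * f (κ * σ)) := by
    intro σ
    rw [← Equiv.sum_comp (Equiv.mulRight σ)]
    refine Finset.sum_congr rfl fun κ _ => ?_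
    have h2 : ∏ i, A (σ i) ((Equiv.mulRight σ) κ i) = ∏ i, A i (κ i) := by
      rw [← Equiv.prod_comp σ (fun i => A i (κ i))]
      rfl
    rw [h2]
    simp only [Equiv.coe_mulRight]
    ring
  simp only [h1]
  rw [Finset.sum_comm, per_prod, Finset.sum_mul, ← Finset.sum_sub_distrib]
  refine Finset.sum_congr rfl fun κ _ => ?_
  rw [← Finset.mul_sum, ← mul_sub, ← Finset.sum_sub_distrib]
  congr 1
  refine Finset.sum_congr rfl fun σ _ => ?_
  have e1 : ∑ τ : P4, star (f σ) * f τ * (if τ⁻¹ * σ = 1 then (1 : ℂ) else 0) =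
      star (f σ) * f σ := by
    rw [Finset.sum_eq_single σ]
    · simp
    · intro τ _ hτ
      rw [if_neg, mul_zero]
      intro h
      exact hτ (inv_mul_eq_one.1 h)
    · intro h
      exact absurd (Finset.mem_univ _) h
  have e2 : ∑ τ : P4, star (f σ) * f τ * (if τ⁻¹ * κ * σ = 1 then (1 : ℂ) else 0) =
      star (f σ) * f (κ * σ) := by
    rw [Finset.sum_eq_single (κ * σ)]
    · rw [if_pos (by group), mul_one]
    · intro τ _ hτ
      rw [if_neg, mul_zero]
      intro h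
      rw [mul_assoc] at h
      exact hτ (inv_mul_eq_one.1 h)
    · intro h
      exact absurd (Finset.mem_univ _) h
  simp only [mul_sub, Finset.sum_sub_distrib, e1, e2]

theorem tw_sum (f : P4 → ℂ) (A : Matrix (Fin 4) (Fin 4) ℂ) :
    (A.permanent - A.det) * (star (∑ σ, tw f σ) * ∑ σ, tw f σ) =
    ∑ κ : P4, (∏ i, A i (κ i)) * ∑ σ : P4, ∑ τ : P4, star (tw f σ) * tw f τ *
      (1 - ((Equiv.Perm.sign κ : ℤ) : ℂ)) := by
  rw [per_prod, det_prod, ← Finset.sum_sub_distrib, Finset.sum_mul, star_sum,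
    Finset.sum_mul_sum]
  refine Finset.sum_congr rfl fun κ _ => ?_
  simp only [← Finset.sum_mul]
  ring

/-- The Fourier identity. -/
theorem fourier (A : Matrix (Fin 4) (Fin 4) ℂ) (f : P4 → ℂ) :
    24 * (A.permanent * ∑ σ : P4, star (f σ) * f σ -
      ∑ σ : P4, ∑ τ : P4, star (f σ) * (∏ i, A (σ i) (τ i)) * f τ) =
    3 * ∑ l, GG nat4 A (XX nat4 f l) + 2 * ∑ l, GG pr A (XX pr f l) +
      3 * ∑ l, HH A (XX nat4 (tw f) l) -
      2 * ((A.permanent - A.det) * (star (∑ σ, tw f σ) * ∑ σ, tw f σ)) := by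
  rw [quad, GG_sum nat4 nat4_mul nat4_one, GG_sum pr pr_mul pr_one, HH_sum, tw_sum]
  simp only [Finset.mul_sum]
  rw [← Finset.sum_add_distrib, ← Finset.sum_add_distrib, ← Finset.sum_sub_distrib]
  refine Finset.sum_congr rfl fun κ _ => ?_
  rw [← Finset.sum_add_distrib, ← Finset.sum_add_distrib, ← Finset.sum_sub_distrib]
  refine Finset.sum_congr rfl fun σ _ => ?_
  rw [← Finset.sum_add_distrib, ← Finset.sum_add_distrib, ← Finset.sum_sub_distrib]
  refine Finset.sum_congr rfl fun τ _ => ?_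
  have c1 := class_id (τ⁻¹ * σ)
  have c2 := class_id (τ⁻¹ * κ * σ)
  rw [Equiv.Perm.sign_mul, Equiv.Perm.sign_inv] at c1
  rw [Equiv.Perm.sign_mul, Equiv.Perm.sign_mul, Equiv.Perm.sign_inv] at c2
  have d1 := congrArg (fun z : ℤ => (z : ℂ)) c1
  have d2 := congrArg (fun z : ℤ => (z : ℂ)) c2
  push_cast at d1 d2
  have s0 : star ((Equiv.Perm.sign σ : ℤ) : ℂ) = ((Equiv.Perm.sign σ : ℤ) : ℂ) := by simp
  unfold tw
  rw [star_mul', s0]
  linear_combination ((∏ i, A i (κ i)) * (star (f σ) * f τ)) * (d1 - d2)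


theorem HH_ge (A : Matrix (Fin 4) (Fin 4) ℂ) (hA : A.PosSemidef) (x : Fin 4 → ℂ) :
    (A.permanent.re - A.det.re) * ‖∑ k, x k‖ ^ 2 / 4 ≤ (HH A x).re := by
  set S : ℂ := ∑ k, x k with hS
  have hT := SPM.T_all 4 A hA (fun i => x i + (-S / 4))
  have hq := SPM.qfC_add_const A x (-S / 4)
  have hSc : ∑ i, star (x i) = star S := by rw [hS, star_sum]
  have hSS : star S * S = ((‖S‖ ^ 2 : ℝ) : ℂ) := by
    rw [mul_comm, Complex.star_def, Complex.mul_conj, Complex.normSq_eq_norm_sq]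
  have e1 : star (-S / 4) * ∑ i, x i + (-S / 4) * ∑ i, star (x i) +
      ((4 : ℕ) : ℂ) * (star (-S / 4) * (-S / 4)) = ((-(‖S‖ ^ 2 / 4) : ℝ) : ℂ) := by
    rw [hSc, ← hS]
    have h4 : star (-S / 4) = -star S / 4 := by
      simp
    rw [h4]
    push_cast
    rw [← Complex.ofReal_pow, ← hSS]
    ring
  rw [e1] at hq
  have hx : ∑ k, star (x k) * x k = ((SPM.nsq x : ℝ) : ℂ) := by
    unfold SPM.nsq
    rw [Complex.ofReal_sum]
    refine Finset.sum_congr rfl fun k _ => ?_
    rw [mul_comm, Complex.star_def, Complex.mul_conj, Complex.normSq_eq_norm_sq]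
  have hn : SPM.nsq (fun i => x i + (-S / 4)) = SPM.nsq x - ‖S‖ ^ 2 / 4 := by
    have h1 : ((SPM.nsq (fun i => x i + (-S / 4)) : ℝ) : ℂ) =
        ((SPM.nsq x - ‖S‖ ^ 2 / 4 : ℝ) : ℂ) := by
      have h2 : ((SPM.nsq (fun i => x i + (-S / 4)) : ℝ) : ℂ) =
          ∑ k, star (x k + (-S / 4)) * (x k + (-S / 4)) := by
        unfold SPM.nsq
        rw [Complex.ofReal_sum]
        refine Finset.sum_congr rfl fun k _ => ?_
        rw [mul_comm, Complex.star_def, Complex.mul_conj, Complex.normSq_eq_norm_sq]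
      have h3 : ∀ k, star (x k + (-S / 4)) * (x k + (-S / 4)) =
          star (x k) * x k + (star (-S / 4) * x k + (-S / 4) * star (x k)) +
            star (-S / 4) * (-S / 4) := by
        intro k
        rw [star_add]
        ring
      rw [h2]
      simp only [h3]
      rw [Finset.sum_add_distrib, Finset.sum_add_distrib, Finset.sum_add_distrib,
        ← Finset.mul_sum, ← Finset.mul_sum, hx, Finset.sum_const, Finset.card_univ,
        Fintype.card_fin, nsmul_eq_mul]
      push_cast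
      push_cast at e1
      linear_combination e1
    exact_mod_cast h1
  have hre : (SPM.qfC A (fun i => x i + (-S / 4))).re =
      (SPM.qfC A x).re - A.det.re * (‖S‖ ^ 2 / 4) := by
    rw [hq, Complex.add_re, mul_comm, Complex.re_ofReal_mul]
    ring
  have hq2 : SPM.qf A (fun i => x i + (-S / 4)) =
      (SPM.qfC A (fun i => x i + (-S / 4))).re := rfl
  rw [hq2, hre, hn] at hT
  have hm : (A.permanent * ((SPM.nsq x : ℝ) : ℂ)).re = A.permanent.re * SPM.nsq x := by
    rw [mul_comm, Complex.re_ofReal_mul, mul_comm]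
  rw [HH_eq, hx, Complex.sub_re, hm]
  linarith

theorem XX_sum (f : P4 → ℂ) (l : Fin 4) : ∑ k, XX nat4 f l k = ∑ σ, f σ := by
  unfold XX
  rw [Finset.sum_comm]
  refine Finset.sum_congr rfl fun σ _ => ?_
  rw [Finset.sum_eq_single (nat4 σ l)]
  · simp
  · intro k _ hk
    rw [if_neg (fun h => hk h.symm)]
  · intro h
    exact absurd (Finset.mem_univ _) h

theorem det_le_per (A : Matrix (Fin 4) (Fin 4) ℂ) (hA : A.PosSemidef) :
    A.det.re ≤ A.permanent.re := by
  have h := SPM.T_all 4 A hA (fun _ => 1)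
  have h1 : SPM.qfC A (fun _ => 1) = 4 * A.det := by
    have h2 := SPM.qfC_add_const A (fun _ => 0) 1
    simp only [zero_add] at h2
    rw [h2]
    have h3 : SPM.qfC A (fun _ => 0) = 0 := by
      unfold SPM.qfC
      simp
    rw [h3]
    simp
    ring
  have h2 : SPM.nsq (fun _ : Fin 4 => (1 : ℂ)) = 4 := by
    unfold SPM.nsq
    simp
  have h3 : SPM.qf A (fun _ => 1) = 4 * A.det.re := by
    unfold SPM.qf
    rw [h1]
    simp
  rw [h2, h3] at h
  linarith

end FourAux

open FourAux Matrix Finset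
open scoped ComplexOrder

/-- Assembly: the bounds for the blocks (3,1), (2,2) and (2,1,1) give the bound for the whole
Schur power matrix. -/
theorem assemble
    (h31 : ∀ A : Matrix (Fin 4) (Fin 4) ℂ, A.PosSemidef → ∀ x : Fin 4 → ℂ, 0 ≤ (GG nat4 A x).re)
    (h22 : ∀ A : Matrix (Fin 4) (Fin 4) ℂ, A.PosSemidef → ∀ x : Fin 3 → ℂ, 0 ≤ (GG pr A x).re)
    (A : Matrix (Fin 4) (Fin 4) ℂ) (hA : A.PosSemidef) (f : P4 → ℂ) :
    (∑ σ : P4, ∑ τ : P4, star (f σ) * (∏ i, A (σ i) (τ i)) * f τ).re ≤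
      A.permanent.re * ∑ σ : P4, ‖f σ‖ ^ 2 := by
  have hF := congrArg Complex.re (fourier A f)
  have hff : ∑ σ : P4, star (f σ) * f σ = ((∑ σ : P4, ‖f σ‖ ^ 2 : ℝ) : ℂ) := by
    rw [Complex.ofReal_sum]
    refine Finset.sum_congr rfl fun k _ => ?_
    rw [mul_comm, Complex.star_def, Complex.mul_conj, Complex.normSq_eq_norm_sq]
  set S : ℂ := ∑ σ, tw f σ with hS
  have hSS : star S * S = ((‖S‖ ^ 2 : ℝ) : ℂ) := by
    rw [mul_comm, Complex.star_def, Complex.mul_conj, Complex.normSq_eq_norm_sq]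
  rw [hff, hSS] at hF
  have hG1 : 0 ≤ (∑ l, GG nat4 A (XX nat4 f l)).re := by
    rw [Complex.re_sum]
    exact Finset.sum_nonneg fun l _ => h31 A hA _
  have hG2 : 0 ≤ (∑ l, GG pr A (XX pr f l)).re := by
    rw [Complex.re_sum]
    exact Finset.sum_nonneg fun l _ => h22 A hA _
  have hH : (A.permanent.re - A.det.re) * ‖S‖ ^ 2 ≤ (∑ l, HH A (XX nat4 (tw f) l)).re := by
    rw [Complex.re_sum]
    have h1 : ∀ l : Fin 4, (A.permanent.re - A.det.re) * ‖S‖ ^ 2 / 4 ≤
        (HH A (XX nat4 (tw f) l)).re := by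
      intro l
      have h2 := HH_ge A hA (XX nat4 (tw f) l)
      rwa [XX_sum, ← hS] at h2
    calc (A.permanent.re - A.det.re) * ‖S‖ ^ 2 =
        ∑ _l : Fin 4, (A.permanent.re - A.det.re) * ‖S‖ ^ 2 / 4 := by
          rw [Finset.sum_const, Finset.card_univ, Fintype.card_fin, nsmul_eq_mul]
          push_cast
          ring
      _ ≤ _ := Finset.sum_le_sum fun l _ => h1 l
  have hd := det_le_per A hA
  have hp : 0 ≤ (A.permanent.re - A.det.re) * ‖S‖ ^ 2 :=
    mul_nonneg (by linarith) (by positivity)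
  have r1 : ∀ (r : ℝ) (z : ℂ), (z * (r : ℂ)).re = z.re * r := by
    intro r z
    rw [mul_comm, Complex.re_ofReal_mul, mul_comm]
  have n24 : ∀ z : ℂ, ((24 : ℂ) * z).re = 24 * z.re := fun z => by
    simp
  have n3 : ∀ z : ℂ, ((3 : ℂ) * z).re = 3 * z.re := fun z => by
    simp
  have n2 : ∀ z : ℂ, ((2 : ℂ) * z).re = 2 * z.re := fun z => by
    simp
  rw [n24, Complex.sub_re, Complex.sub_re, Complex.add_re, Complex.add_re, n3, n3, n2, n2,
    r1, r1, Complex.sub_re] at hF
  linarith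


end Pot4
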