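import Pool.Agent.Lib.Pot4.Scale
import Pool.Agent.Lib.Pot4.Four
import Pool.Agent.Lib.Pot4.Cert22
import Pool.Agent.Lib.Pot4.Cert31

/-!
# Soules' permanent-on-top conjecture for matrices of order four

For every complex positive semidefinite `4 x 4` matrix `A` the largest eigenvalue of the Schur
power matrix `pi(A)` is `per A`. The blocks (3,1) and (2,2) are done by kernel-checked
sums of squares (`cert31`, `cert22`), the block (2,1,1) by `SPM.hadamard_le`.
-/

set_option autoImplicit false

namespace Pot4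

open Finset Equiv
open scoped ComplexOrder

theorem form31 (A : Matrix (Fin 4) (Fin 4) ℂ) (hA : A.PosSemidef) (x : Fin 4 → ℂ) :
    0 ≤ (GG nat4 A x).re := scale nat4 cert31 A hA x

theorem form22 (A : Matrix (Fin 4) (Fin 4) ℂ) (hA : A.PosSemidef) (x : Fin 3 → ℂ) :
    0 ≤ (GG pr A x).re := scale pr cert22 A hA x

/-- Soules' conjecture for `n = 4` -/
theorem soules_four (A : Matrix (Fin 4) (Fin 4) ℂ) (hA : A.PosSemidef)
    (f : Perm (Fin 4) → ℂ) :
    (∑ σ : Perm (Fin 4), ∑ τ : Perm (Fin 4), star (f σ) * (∏ i, A (σ i) (τ i)) * f τ).re ≤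
      A.permanent.re * ∑ σ : Perm (Fin 4), ‖f σ‖ ^ 2 :=
  assemble form31 form22 A hA f

end Pot4
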