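import Mathlib
import Pool.Agent.Lib.Pot4.Main

/-!
# The matrix `(a_ij per A(i|j))` for order four
-/

set_option autoImplicit false

namespace Pot4

open Finset Equiv
open scoped ComplexOrder

theorem ex_lift : ∀ (k l : Fin 4) (τ : Perm (Fin 3)), ∃ σ : Perm (Fin 4),
    σ k = l ∧ ∀ j, σ (k.succAbove (τ j)) = l.succAbove j := by
  decide +kernel

theorem ex_drop : ∀ (k : Fin 4) (σ : Perm (Fin 4)), ∃ τ : Perm (Fin 3),
    ∀ j, σ (k.succAbove (τ j)) = (σ k).succAbove j := by
  decide +kernel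

theorem expand (A : Matrix (Fin 4) (Fin 4) ℂ) (k l : Fin 4) :
    ∑ σ : Perm (Fin 4), (if σ k = l then ∏ i, A i (σ i) else 0)
      = A k l * (A.submatrix k.succAbove l.succAbove).permanent := by
  classical
  choose e he1 he2 using ex_lift k l
  unfold Matrix.permanent
  rw [Finset.mul_sum, ← Finset.sum_filter]
  symm
  refine Finset.sum_bij (fun τ _ => e τ) ?_ ?_ ?_ ?_
  · intro τ _
    rw [Finset.mem_filter]
    exact ⟨Finset.mem_univ _, he1 τ⟩
  · intro τ _ τ' _ h
    apply Equiv.ext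
    intro j
    have h1 := he2 τ j
    have h2 := he2 τ' j
    rw [h] at h1
    exact Fin.succAbove_right_injective ((e τ').injective (h1.trans h2.symm))
  · intro σ hσ
    rw [Finset.mem_filter] at hσ
    obtain ⟨τ, hτ⟩ := ex_drop k σ
    refine ⟨τ, Finset.mem_univ _, ?_⟩
    apply Equiv.ext
    intro i
    by_cases hik : i = k
    · rw [hik, he1 τ, hσ.2]
    · obtain ⟨j, hj⟩ := Fin.exists_succAbove_eq hik
      rw [← hj]
      have h1 := he2 τ (τ.symm j)
      have h2 := hτ (τ.symm j)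
      rw [Equiv.apply_symm_apply] at h1 h2
      rw [h1, h2, hσ.2]
  · intro τ _
    rw [Fin.prod_univ_succAbove _ k, he1 τ]
    congr 1
    rw [← Equiv.prod_comp τ (fun i => A (k.succAbove i) (e τ (k.succAbove i)))]
    refine Finset.prod_congr rfl fun j _ => ?_
    rw [he2 τ j]
    rfl

theorem bs_form (A : Matrix (Fin 4) (Fin 4) ℂ) (x : Fin 4 → ℂ) :
    ∑ k, ∑ l, star (x k) * (A k l * (A.submatrix k.succAbove l.succAbove).permanent) * x l
      = ∑ σ : Perm (Fin 4), (∏ i, A i (σ i)) * ∑ k, star (x k) * x (σ k) := by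
  have h1 : ∀ k l, star (x k) * (A k l * (A.submatrix k.succAbove l.succAbove).permanent) * x l
      = ∑ σ : Perm (Fin 4), (if σ k = l then star (x k) * (∏ i, A i (σ i)) * x l else 0) := by
    intro k l
    rw [← expand, Finset.mul_sum, Finset.sum_mul]
    refine Finset.sum_congr rfl fun σ _ => ?_
    split_ifs <;> simp
  simp only [h1]
  have h2 : ∀ k, ∑ l, ∑ σ : Perm (Fin 4),
      (if σ k = l then star (x k) * (∏ i, A i (σ i)) * x l else 0)
      = ∑ σ : Perm (Fin 4), star (x k) * (∏ i, A i (σ i)) * x (σ k) := by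
    intro k
    rw [Finset.sum_comm]
    refine Finset.sum_congr rfl fun σ _ => ?_
    rw [Finset.sum_ite_eq, if_pos (Finset.mem_univ _)]
  simp only [h2]
  rw [Finset.sum_comm]
  refine Finset.sum_congr rfl fun σ _ => ?_
  rw [Finset.mul_sum]
  refine Finset.sum_congr rfl fun k _ => ?_
  ring

theorem per_eq (A : Matrix (Fin 4) (Fin 4) ℂ) :
    A.permanent = ∑ σ : Perm (Fin 4), ∏ i, A i (σ i) := by
  rw [← Matrix.permanent_transpose]
  rfl

/-- Bapat and Sunder's second conjecture for `n = 4` -/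
theorem bs_four (A : Matrix (Fin 4) (Fin 4) ℂ) (hA : A.PosSemidef) (x : Fin 4 → ℂ) :
    (∑ k, ∑ l, star (x k) * (A k l * (A.submatrix k.succAbove l.succAbove).permanent) * x l).re
      ≤ A.permanent.re * ∑ k, ‖x k‖ ^ 2 := by
  have h := form31 A hA x
  have hN : ∑ k, star (x k) * x k = ((∑ k, ‖x k‖ ^ 2 : ℝ) : ℂ) := by
    rw [Complex.ofReal_sum]
    refine Finset.sum_congr rfl fun k _ => ?_
    rw [mul_comm, Complex.star_def, Complex.mul_conj, Complex.normSq_eq_norm_sq]
  have h1 : GG nat4 A x = A.permanent * ((∑ k, ‖x k‖ ^ 2 : ℝ) : ℂ)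
      - ∑ k, ∑ l, star (x k) * (A k l * (A.submatrix k.succAbove l.succAbove).permanent) * x l := by
    rw [bs_form, ← hN, per_eq, Finset.sum_mul, ← Finset.sum_sub_distrib]
    unfold GG
    refine Finset.sum_congr rfl fun σ _ => ?_
    rw [← mul_sub, ← Finset.sum_sub_distrib]
    congr 1
    refine Finset.sum_congr rfl fun k _ => ?_
    unfold nat4
    ring
  rw [h1, Complex.sub_re, Complex.re_mul_ofReal] at h
  linarith

end Pot4
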