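import Mathlib
import Pool.Agent.Lib.SPM.Inv
import Pool.Agent.Lib.Pot4.Defs

/-! MP_502342_al, order 4: reduction to matrices with unit diagonal. -/

set_option autoImplicit false

namespace Pot4

open Matrix Finset
open scoped ComplexOrder

private theorem row_zero (A : Matrix (Fin 4) (Fin 4) ℂ) (hA : A.PosSemidef) (k : Fin 4)
    (hk : A k k = 0) (j : Fin 4) : A k j = 0 := by
  have h0 : star (Pi.single k (1 : ℂ) : Fin 4 → ℂ) ⬝ᵥ (A *ᵥ (Pi.single k (1 : ℂ))) = 0 := by
    have : star (Pi.single k (1 : ℂ) : Fin 4 → ℂ) = Pi.single k (1 : ℂ) := by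
      rw [← Pi.single_star, star_one]
    rw [this, Matrix.mulVec_single_one, single_one_dotProduct]
    exact hk
  have h1 := (hA.dotProduct_mulVec_zero_iff _).mp h0
  have h2 : A j k = 0 := by
    have := congrFun h1 j
    rwa [Matrix.mulVec_single_one] at this
  have h3 := hA.1.apply k j
  rw [← h3, h2, star_zero]

/-- Reduction to matrices with unit diagonal. -/
theorem scale {K : ℕ} (act : Equiv.Perm (Fin 4) → Fin K → Fin K)
    (h : ∀ A : Matrix (Fin 4) (Fin 4) ℂ, A.PosSemidef → (∀ i, A i i = 1) →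
      ∀ x : Fin K → ℂ, 0 ≤ (GG act A x).re)
    (A : Matrix (Fin 4) (Fin 4) ℂ) (hA : A.PosSemidef) (x : Fin K → ℂ) :
    0 ≤ (GG act A x).re := by
  by_cases hz : ∃ k, A k k = 0
  · obtain ⟨k, hk⟩ := hz
    have : GG act A x = 0 := by
      unfold GG
      refine Finset.sum_eq_zero fun σ _ => ?_
      have h0 : ∏ i, A i (σ i) = 0 :=
        Finset.prod_eq_zero (Finset.mem_univ k) (row_zero A hA k hk (σ k))
      rw [h0, zero_mul]
    rw [this]
    simp
  · push Not at hz
    -- real positive diagonal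
    have hd : ∀ i, 0 < (A i i).re ∧ (A i i).im = 0 := by
      intro i
      have h0 : 0 ≤ A i i := hA.diag_nonneg
      rw [Complex.nonneg_iff] at h0
      refine ⟨lt_of_le_of_ne h0.1 ?_, h0.2.symm⟩
      intro he
      exact hz i (Complex.ext he.symm h0.2.symm)
    set s : Fin 4 → ℝ := fun i => Real.sqrt (A i i).re with hs
    have hs0 : ∀ i, 0 < s i := fun i => Real.sqrt_pos.2 (hd i).1
    have hss : ∀ i, A i i = ((s i : ℝ) : ℂ) * ((s i : ℝ) : ℂ) := by
      intro i
      rw [← Complex.ofReal_mul, hs]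
      simp only
      rw [Real.mul_self_sqrt (hd i).1.le]
      exact Complex.ext (by simp) (by simp [(hd i).2])
    have hsc : ∀ i, ((s i : ℝ) : ℂ) ≠ 0 := fun i => by
      exact_mod_cast (hs0 i).ne'
    set B : Matrix (Fin 4) (Fin 4) ℂ :=
      Matrix.of fun i j => star (((s i)⁻¹ : ℝ) : ℂ) * A i j * (((s j)⁻¹ : ℝ) : ℂ) with hB
    have hst : ∀ i, star (((s i)⁻¹ : ℝ) : ℂ) = ((s i : ℝ) : ℂ)⁻¹ := by
      intro i
      rw [Complex.star_def, Complex.conj_ofReal, Complex.ofReal_inv]
    have hBp : B.PosSemidef := SPM.psd_scale A hA (fun i => (((s i)⁻¹ : ℝ) : ℂ))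
    have hBd : ∀ i, B i i = 1 := by
      intro i
      rw [hB]
      simp only [Matrix.of_apply]
      rw [hst, Complex.ofReal_inv, hss i]
      field_simp [hsc i]
    have hAB : ∀ i j, A i j = ((s i : ℝ) : ℂ) * ((s j : ℝ) : ℂ) * B i j := by
      intro i j
      rw [hB]
      simp only [Matrix.of_apply]
      rw [hst, Complex.ofReal_inv]
      field_simp [hsc i, hsc j]
    have hGG : GG act A x = ((∏ i, (s i) ^ 2 : ℝ) : ℂ) * GG act B x := by
      unfold GG
      rw [Finset.mul_sum]
      refine Finset.sum_congr rfl fun σ _ => ?_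
      rw [← mul_assoc]
      congr 1
      have h1 : ∏ i, A i (σ i) = (∏ i, ((s i : ℝ) : ℂ)) * (∏ i, ((s (σ i) : ℝ) : ℂ)) *
          ∏ i, B i (σ i) := by
        rw [← Finset.prod_mul_distrib, ← Finset.prod_mul_distrib]
        exact Finset.prod_congr rfl fun i _ => hAB i (σ i)
      rw [h1, Equiv.prod_comp σ (fun i => ((s i : ℝ) : ℂ))]
      push_cast
      rw [Finset.prod_pow]
      ring
    rw [hGG, Complex.re_ofReal_mul]
    exact mul_nonneg (Finset.prod_nonneg fun i _ => by positivity) (h B hBp hBd x)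

end Pot4
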