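import Mathlib
import Pool.Agent.Lib.Pot4.Four
import Pool.Agent.Lib.Pot4.Scale
import Pool.Agent.Lib.Pot4.Cert31
import Pool.Agent.Lib.Pot4.Cert22

/-!
The permanent-on-top statement of Soules for complex matrices of order 4: quadratic form, row sums,
eigenvalues, Hadamard products.
-/

set_option autoImplicit false

open scoped ComplexOrder MatrixOrder

namespace Pot4

/-- The quadratic form of the Schur power matrix. -/
theorem soules_form (A : Matrix (Fin 4) (Fin 4) ℂ) (hA : A.PosSemidef)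
    (x : Equiv.Perm (Fin 4) → ℂ) :
    (∑ σ : Equiv.Perm (Fin 4), ∑ τ : Equiv.Perm (Fin 4),
        star (x σ) * (∏ i, A (σ i) (τ i)) * x τ).re
      ≤ A.permanent.re * ∑ σ : Equiv.Perm (Fin 4), ‖x σ‖ ^ 2 :=
  assemble (scale nat4 cert31) (scale pr cert22) A hA x

/-- Row sums. -/
theorem soules_row (A : Matrix (Fin 4) (Fin 4) ℂ) (σ : Equiv.Perm (Fin 4)) :
    ∑ τ : Equiv.Perm (Fin 4), ∏ i, A (σ i) (τ i) = A.permanent := by
  have h1 : ∑ τ : Equiv.Perm (Fin 4), ∏ i, A (σ i) (τ i) =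
      ∑ κ : Equiv.Perm (Fin 4), ∏ i, A i (κ i) := by
    rw [← Equiv.sum_comp (Equiv.mulRight σ)]
    refine Finset.sum_congr rfl fun κ _ => ?_
    rw [← Equiv.prod_comp σ (fun i => A i (κ i))]
    rfl
  rw [h1, ← Matrix.permanent_transpose]
  rfl

/-- Eigenvalues. -/
theorem soules_eig (A : Matrix (Fin 4) (Fin 4) ℂ) (hA : A.PosSemidef) (μ : ℂ)
    (x : Equiv.Perm (Fin 4) → ℂ) (hx : x ≠ 0)
    (hμ : ∀ σ : Equiv.Perm (Fin 4),
      ∑ τ : Equiv.Perm (Fin 4), (∏ i, A (σ i) (τ i)) * x τ = μ * x σ) :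
    μ.im = 0 ∧ μ.re ≤ A.permanent.re := by
  have hherm : ∀ σ τ : Equiv.Perm (Fin 4), star (∏ i, A (σ i) (τ i)) = ∏ i, A (τ i) (σ i) := by
    intro σ τ
    rw [star_prod]
    exact Finset.prod_congr rfl fun i _ => hA.1.apply _ _
  have hn : (∑ σ : Equiv.Perm (Fin 4), ‖x σ‖ ^ 2) > 0 := by
    obtain ⟨σ, hσ⟩ := Function.ne_iff.1 hx
    refine Finset.sum_pos' (fun τ _ => by positivity) ⟨σ, Finset.mem_univ _, ?_⟩
    have : 0 < ‖x σ‖ := norm_pos_iff.2 hσ
    positivity
  set N : ℝ := ∑ σ : Equiv.Perm (Fin 4), ‖x σ‖ ^ 2 with hN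
  have hq : ∑ σ : Equiv.Perm (Fin 4), ∑ τ : Equiv.Perm (Fin 4),
      star (x σ) * (∏ i, A (σ i) (τ i)) * x τ = μ * (N : ℂ) := by
    have h1 : ∀ σ : Equiv.Perm (Fin 4), ∑ τ : Equiv.Perm (Fin 4),
        star (x σ) * (∏ i, A (σ i) (τ i)) * x τ = μ * ((‖x σ‖ ^ 2 : ℝ) : ℂ) := by
      intro σ
      have h2 : ∑ τ : Equiv.Perm (Fin 4), star (x σ) * (∏ i, A (σ i) (τ i)) * x τ =
          star (x σ) * ∑ τ : Equiv.Perm (Fin 4), (∏ i, A (σ i) (τ i)) * x τ := by
        rw [Finset.mul_sum]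
        exact Finset.sum_congr rfl fun τ _ => by ring
      rw [h2, hμ σ]
      have h3 : star (x σ) * x σ = ((‖x σ‖ ^ 2 : ℝ) : ℂ) := by
        rw [mul_comm, Complex.star_def, Complex.mul_conj, Complex.normSq_eq_norm_sq]
      rw [← h3]
      ring
    rw [Finset.sum_congr rfl fun σ _ => h1 σ, ← Finset.mul_sum, hN, Complex.ofReal_sum]
  have hreal : star (∑ σ : Equiv.Perm (Fin 4), ∑ τ : Equiv.Perm (Fin 4),
      star (x σ) * (∏ i, A (σ i) (τ i)) * x τ) =
      ∑ σ : Equiv.Perm (Fin 4), ∑ τ : Equiv.Perm (Fin 4),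
      star (x σ) * (∏ i, A (σ i) (τ i)) * x τ := by
    simp only [star_sum]
    rw [Finset.sum_comm]
    refine Finset.sum_congr rfl fun σ _ => Finset.sum_congr rfl fun τ _ => ?_
    rw [star_mul', star_mul', star_star, hherm]
    ring
  constructor
  · rw [hq] at hreal
    have h4 := congrArg Complex.im hreal
    rw [Complex.star_def, Complex.conj_im, mul_comm μ, Complex.im_ofReal_mul] at h4
    have h5 : N * μ.im = 0 := by linarith
    rcases mul_eq_zero.1 h5 with h | h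
    · exact absurd h hn.ne'
    · exact h
  · have h6 := soules_form A hA x
    rw [hq, mul_comm μ, Complex.re_ofReal_mul, ← hN, mul_comm N] at h6
    exact le_of_mul_le_mul_right h6 hn

/-- Hadamard products. -/
theorem soules_hadamard (A B : Matrix (Fin 4) (Fin 4) ℂ) (hA : A.PosSemidef) (hB : B.PosSemidef) :
    (A.hadamard B).permanent.re ≤ A.permanent.re * ∏ i, (B i i).re := by
  obtain ⟨C, hC⟩ := CStarAlgebra.nonneg_iff_eq_star_mul_self.mp hB.nonneg
  have hb : ∀ i j, B i j = ∑ k, star (C k i) * C k j := by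
    intro i j
    rw [hC, Matrix.mul_apply]
    rfl
  set X : (Fin 4 → Fin 4) → Equiv.Perm (Fin 4) → ℂ := fun k σ => ∏ i, C (k i) (σ i) with hX
  have hXX : ∀ σ τ : Equiv.Perm (Fin 4), ∑ k, star (X k σ) * X k τ = ∏ i, B (σ i) (τ i) := by
    intro σ τ
    have h1 : ∏ i, B (σ i) (τ i) = ∏ i, ∑ k ∈ Finset.univ, star (C k (σ i)) * C k (τ i) :=
      Finset.prod_congr rfl fun i _ => hb _ _
    rw [h1, Finset.prod_univ_sum, Fintype.piFinset_univ]
    refine Finset.sum_congr rfl fun k _ => ?_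
    rw [hX]
    simp only [star_prod]
    rw [← Finset.prod_mul_distrib]
  have hsum := Finset.sum_le_sum fun (k : Fin 4 → Fin 4) (_ : k ∈ Finset.univ) =>
    soules_form A hA (X k)
  rw [← Complex.re_sum, ← Finset.mul_sum] at hsum
  have hL : ∑ k, ∑ σ : Equiv.Perm (Fin 4), ∑ τ : Equiv.Perm (Fin 4),
      star (X k σ) * (∏ i, A (σ i) (τ i)) * X k τ = 24 * (A.hadamard B).permanent := by
    rw [Finset.sum_comm]
    have h1 : ∀ σ : Equiv.Perm (Fin 4), ∑ k, ∑ τ : Equiv.Perm (Fin 4),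
        star (X k σ) * (∏ i, A (σ i) (τ i)) * X k τ = (A.hadamard B).permanent := by
      intro σ
      rw [Finset.sum_comm, ← soules_row (A.hadamard B) σ]
      refine Finset.sum_congr rfl fun τ _ => ?_
      simp only [Matrix.hadamard_apply]
      rw [Finset.prod_mul_distrib, ← hXX σ τ, Finset.mul_sum]
      refine Finset.sum_congr rfl fun k _ => ?_
      ring
    rw [Finset.sum_congr rfl fun σ _ => h1 σ, Finset.sum_const, Finset.card_univ,
      Fintype.card_perm, Fintype.card_fin]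
    norm_num [Nat.factorial]
  have hR : ∑ k, ∑ σ : Equiv.Perm (Fin 4), ‖X k σ‖ ^ 2 = 24 * ∏ i, (B i i).re := by
    rw [Finset.sum_comm]
    have h1 : ∀ σ : Equiv.Perm (Fin 4), ∑ k, ‖X k σ‖ ^ 2 = ∏ i, (B i i).re := by
      intro σ
      have h2 : ((∑ k, ‖X k σ‖ ^ 2 : ℝ) : ℂ) = ((∏ i, (B i i).re : ℝ) : ℂ) := by
        have h3 : ∀ k, star (X k σ) * X k σ = ((‖X k σ‖ ^ 2 : ℝ) : ℂ) := fun k => by
          rw [mul_comm, Complex.star_def, Complex.mul_conj, Complex.normSq_eq_norm_sq]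
        rw [Complex.ofReal_sum, ← Finset.sum_congr rfl fun k _ => h3 k, hXX σ σ,
          Equiv.prod_comp σ (fun i => B i i), Complex.ofReal_prod]
        refine Finset.prod_congr rfl fun i _ => ?_
        have h4 := hB.1.coe_re_apply_self i
        exact h4.symm
      exact_mod_cast h2
    rw [Finset.sum_congr rfl fun σ _ => h1 σ, Finset.sum_const, Finset.card_univ,
      Fintype.card_perm, Fintype.card_fin, nsmul_eq_mul]
    norm_num [Nat.factorial]
  rw [hL, hR] at hsum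
  have h5 : ((24 : ℂ) * (A.hadamard B).permanent).re = 24 * (A.hadamard B).permanent.re := by
    have : (24 : ℂ) = ((24 : ℝ) : ℂ) := by norm_num
    rw [this, Complex.re_ofReal_mul]
  rw [h5] at hsum
  nlinarith

end Pot4
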